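import Mathlib

set_option autoImplicit false

/-!
# Two irrational numbers with interleaved very good rational approximations
-/

open Filter Topology Set

namespace Pool.Agent.Q187.Sec

/-- exponents -/
def s : ℕ → ℕ
  | 0 => 1
  | k + 1 => (k + 1) * 2 ^ (s k + 3)

lemma s_succ (k : ℕ) : s (k + 1) = (k + 1) * 2 ^ (s k + 3) := rfl

lemma s_lt (k : ℕ) : s k + 1 ≤ s (k + 1) := by
  rw [s_succ]
  have h1 : s k + 3 < 2 ^ (s k + 3) := Nat.lt_two_pow_self
  nlinarith

lemma s_add (k i : ℕ) : s k + i ≤ s (k + i) := by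
  induction i with
  | zero => exact le_refl _
  | succ i ih =>
    have := s_lt (k + i)
    rw [← add_assoc, ← add_assoc]
    omega

lemma s_pos (k : ℕ) : 1 ≤ s k := by
  have := s_add 0 k
  rw [Nat.zero_add] at this
  have h : s 0 = 1 := rfl
  omega

/-- the terms of the series -/
noncomputable def a (ι j : ℕ) : ℝ := (1 / 2) ^ s (2 * j + ι)

lemma a_pos (ι j : ℕ) : 0 < a ι j := by unfold a; positivity

lemma a_tail_le (ι m i : ℕ) : a ι (i + m) ≤ (1 / 2) ^ s (2 * m + ι) * (1 / 2) ^ i := by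
  unfold a
  rw [← pow_add]
  apply pow_le_pow_of_le_one (by norm_num) (by norm_num)
  have h1 := s_add (2 * m + ι) (2 * i)
  have h2 : 2 * m + ι + 2 * i = 2 * (i + m) + ι := by ring
  rw [h2] at h1
  omega

lemma summable_tail (ι m : ℕ) : Summable fun i => a ι (i + m) :=
  Summable.of_nonneg_of_le (fun i => (a_pos ι _).le) (a_tail_le ι m)
    ((summable_geometric_of_lt_one (by norm_num) (by norm_num)).mul_left _)

lemma summable_a (ι : ℕ) : Summable (a ι) := summable_tail ι 0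

lemma tail_le (ι m : ℕ) : ∑' i, a ι (i + m) ≤ 2 * (1 / 2) ^ s (2 * m + ι) := by
  refine ((summable_tail ι m).tsum_le_tsum (a_tail_le ι m)
    ((summable_geometric_of_lt_one (by norm_num) (by norm_num)).mul_left _)).trans ?_
  rw [tsum_mul_left, tsum_geometric_of_lt_one (by norm_num) (by norm_num)]
  norm_num
  linarith

lemma tail_pos (ι m : ℕ) : 0 < ∑' i, a ι (i + m) :=
  (summable_tail ι m).tsum_pos (fun i => (a_pos ι _).le) 0 (a_pos ι _)

/-- the two numbers -/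
noncomputable def A (ι : ℕ) : ℝ := 1 + ∑' j, a ι j

lemma one_lt_A (ι : ℕ) : 1 < A ι := by
  have := tail_pos ι 0
  simp only [add_zero] at this
  unfold A
  linarith

lemma A_le_two (ι : ℕ) : A ι ≤ 2 := by
  have h := tail_le ι 0
  simp only [add_zero] at h
  have h1 : (1 / 2 : ℝ) ^ s (2 * 0 + ι) ≤ 1 / 2 := by
    calc (1 / 2 : ℝ) ^ s (2 * 0 + ι) ≤ (1 / 2) ^ 1 :=
          pow_le_pow_of_le_one (by norm_num) (by norm_num) (s_pos _)
      _ = 1 / 2 := pow_one _
  unfold A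
  linarith

/-- numerators -/
def p (ι m : ℕ) : ℕ :=
  2 ^ s (2 * m + ι) + ∑ j ∈ Finset.range (m + 1), 2 ^ (s (2 * m + ι) - s (2 * j + ι))

/-- denominators -/
def q (ι m : ℕ) : ℕ := 2 ^ s (2 * m + ι)

lemma s_mono {k l : ℕ} (h : k ≤ l) : s k ≤ s l := by
  obtain ⟨i, rfl⟩ := Nat.exists_eq_add_of_le h
  have := s_add k i
  omega

lemma err (ι m : ℕ) : (q ι m : ℝ) * A ι - p ι m = q ι m * ∑' i, a ι (i + (m + 1)) := by
  have h1 : ∑' j, a ι j = ∑ j ∈ Finset.range (m + 1), a ι j + ∑' i, a ι (i + (m + 1)) :=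
    ((summable_a ι).sum_add_tsum_nat_add (m + 1)).symm
  have h2 : (p ι m : ℝ) = q ι m * (1 + ∑ j ∈ Finset.range (m + 1), a ι j) := by
    unfold p q
    push_cast
    rw [mul_add, mul_one, Finset.mul_sum]
    congr 1
    apply Finset.sum_congr rfl
    intro j hj
    have hj' : s (2 * j + ι) ≤ s (2 * m + ι) := s_mono (by
      have := Finset.mem_range.1 hj
      omega)
    unfold a
    rw [pow_sub₀ _ (by norm_num) hj', one_div, inv_pow]
  rw [h2]
  unfold A
  rw [h1]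
  ring

lemma err_pos (ι m : ℕ) : 0 < (q ι m : ℝ) * A ι - p ι m := by
  rw [err]
  have : (0 : ℝ) < q ι m := by unfold q; positivity
  exact mul_pos this (tail_pos ι _)

lemma s_big (k : ℕ) : (k + 2) * 2 ^ (s (k + 1) + 2) + (k + 2) * 2 ^ (s (k + 1) + 2) ≤ s (k + 2) := by
  rw [s_succ (k + 1)]
  apply le_of_eq
  ring

lemma err_le (ι m k : ℕ) (hk : k = 2 * m + ι) :
    (q ι m : ℝ) * A ι - p ι m ≤ (1 / 2) ^ ((k + 2) * 2 ^ (s (k + 1) + 2)) := by
  rw [err]
  have h1 := tail_le ι (m + 1)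
  have h2 : 2 * (m + 1) + ι = k + 2 := by omega
  rw [h2] at h1
  have hq : (q ι m : ℝ) = 2 ^ s k := by unfold q; rw [hk]; push_cast; rfl
  rw [hq]
  calc (2 : ℝ) ^ s k * ∑' i, a ι (i + (m + 1)) ≤ 2 ^ s k * (2 * (1 / 2) ^ s (k + 2)) := by gcongr
    _ = 2 ^ (s k + 1) * (1 / 2) ^ s (k + 2) := by ring
    _ ≤ 2 ^ (s k + 1) * (1 / 2) ^ ((s k + 1) + (k + 2) * 2 ^ (s (k + 1) + 2)) := by
        apply mul_le_mul_of_nonneg_left _ (by positivity)
        apply pow_le_pow_of_le_one (by norm_num) (by norm_num)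
        have h3 := s_big k
        have h4 : s k + 1 ≤ (k + 2) * 2 ^ (s (k + 1) + 2) := by
          have h5 := s_lt k
          have h6 : s (k + 1) + 2 < 2 ^ (s (k + 1) + 2) := Nat.lt_two_pow_self
          nlinarith
        omega
    _ = (2 * (1 / 2)) ^ (s k + 1) * (1 / 2) ^ ((k + 2) * 2 ^ (s (k + 1) + 2)) := by
        rw [mul_pow, pow_add (1 / 2 : ℝ) (s k + 1)]
        ring
    _ = _ := by norm_num

lemma p_le (ι m : ℕ) : (p ι m : ℝ) ≤ 2 * q ι m := by
  have h1 := err_pos ι m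
  have h2 := A_le_two ι
  have : (0 : ℝ) < q ι m := by unfold q; positivity
  nlinarith

lemma level (ι m k : ℕ) (hk : k = 2 * m + ι) : p ι m + q ι m + 2 ≤ 2 ^ (s k + 2) := by
  have h1 : p ι m ≤ 2 * q ι m := by exact_mod_cast p_le ι m
  have h2 : q ι m = 2 ^ s k := by unfold q; rw [hk]
  have h3 : 2 ≤ 2 ^ s k := by
    calc 2 = 2 ^ 1 := (pow_one 2).symm
      _ ≤ 2 ^ s k := Nat.pow_le_pow_right (by norm_num) (s_pos k)
  rw [pow_add]
  omega

lemma p_pos (ι m : ℕ) : 1 ≤ p ι m := by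
  unfold p
  have : 0 < 2 ^ s (2 * m + ι) := by positivity
  omega

lemma q_pos (ι m : ℕ) : 1 ≤ q ι m := by
  unfold q
  have : 0 < 2 ^ s (2 * m + ι) := by positivity
  omega

/-- the two numbers are irrational -/
lemma A_irrational (ι : ℕ) : Irrational (A ι) := by
  rintro ⟨r, hr⟩
  set v : ℕ := r.den with hv
  have hv0 : 0 < v := r.den_pos
  have hmul : (v : ℝ) * A ι = r.num := by
    rw [← hr, Rat.cast_def, hv]
    have : (r.den : ℝ) ≠ 0 := by exact_mod_cast r.den_pos.ne'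
    field_simp
  -- choose `m = v`
  have h1 := err_pos ι v
  have h2 := err_le ι v _ rfl
  have h3 : (v : ℝ) * ((q ι v : ℝ) * A ι - p ι v) = ((q ι v : ℤ) * r.num - v * p ι v : ℤ) := by
    push_cast
    rw [← hmul]
    ring
  have h4 : (0 : ℝ) < ((q ι v : ℤ) * r.num - v * p ι v : ℤ) := by
    rw [← h3]
    have : (0 : ℝ) < v := by exact_mod_cast hv0
    positivity
  have h5 : (1 : ℝ) ≤ ((q ι v : ℤ) * r.num - v * p ι v : ℤ) := by
    have : (0 : ℤ) < (q ι v : ℤ) * r.num - v * p ι v := by exact_mod_cast h4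
    exact_mod_cast (by omega : (1 : ℤ) ≤ (q ι v : ℤ) * r.num - v * p ι v)
  rw [← h3] at h5
  set E := (2 * v + ι + 2) * 2 ^ (s (2 * v + ι + 1) + 2) with hE
  have h6 : v < E := by
    have : 1 ≤ 2 ^ (s (2 * v + ι + 1) + 2) := Nat.one_le_two_pow
    rw [hE]
    nlinarith
  have h7 : (v : ℝ) * (1 / 2) ^ E < 1 := by
    rw [one_div, inv_pow, ← div_eq_mul_inv, div_lt_one (by positivity)]
    have : E < 2 ^ E := Nat.lt_two_pow_self
    exact_mod_cast (h6.trans this)
  have h8 : (v : ℝ) * ((q ι v : ℝ) * A ι - p ι v) ≤ v * (1 / 2) ^ E := by gcongr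
  linarith

/-- every level is covered by a very good approximation of one of the two numbers -/
theorem cover (c : ℝ) (hc : 0 < c) : ∃ N : ℕ, ∀ n, N ≤ n → ∃ ι < 2, ∃ p q : ℕ, 1 ≤ p ∧ 1 ≤ q ∧
    p + q + 2 ≤ n ∧ |(q : ℝ) * A ι - p| < c ^ n := by
  obtain ⟨k₀, hk₀⟩ := exists_pow_lt_of_lt_one hc (show (1 / 2 : ℝ) < 1 by norm_num)
  refine ⟨2 ^ (s k₀ + 2), fun n hn => ?_⟩
  -- the block of `n`
  have hex : ∃ k, n < 2 ^ (s (k + 1) + 2) := by
    refine ⟨n, ?_⟩
    have h1 := s_add 0 (n + 1)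
    rw [Nat.zero_add] at h1
    calc n < 2 ^ n := Nat.lt_two_pow_self
      _ ≤ 2 ^ (s (n + 1) + 2) := Nat.pow_le_pow_right (by norm_num) (by omega)
  classical
  set k := Nat.find hex with hk
  have hk1 : n < 2 ^ (s (k + 1) + 2) := Nat.find_spec hex
  have hkk : k₀ ≤ k := by
    by_contra h
    push Not at h
    have h1 : 2 ^ (s (k + 1) + 2) ≤ 2 ^ (s k₀ + 2) :=
      Nat.pow_le_pow_right (by norm_num) (by have := s_mono (show k + 1 ≤ k₀ by omega); omega)
    omega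
  have hk2 : 2 ^ (s k + 2) ≤ n := by
    rcases Nat.lt_or_ge k₀ k with h | h
    · have h1 := Nat.find_min hex (m := k - 1) (by omega)
      rw [show k - 1 + 1 = k by omega] at h1
      omega
    · rw [show k = k₀ by omega]
      exact hn
  have hdec : k = 2 * (k / 2) + k % 2 := by omega
  refine ⟨k % 2, Nat.mod_lt _ (by norm_num), p (k % 2) (k / 2), q (k % 2) (k / 2), p_pos _ _,
    q_pos _ _, (level _ _ k hdec).trans hk2, ?_⟩
  rw [abs_of_pos (err_pos _ _)]
  refine (err_le _ _ k hdec).trans_lt ?_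
  have hn0 : n ≠ 0 := by
    have : 0 < 2 ^ (s k + 2) := by positivity
    omega
  calc (1 / 2 : ℝ) ^ ((k + 2) * 2 ^ (s (k + 1) + 2)) ≤ (1 / 2) ^ (k₀ * n) := by
        apply pow_le_pow_of_le_one (by norm_num) (by norm_num)
        exact Nat.mul_le_mul (by omega) hk1.le
    _ = ((1 / 2) ^ k₀) ^ n := by rw [pow_mul]
    _ < c ^ n := pow_lt_pow_left₀ hk₀ (by positivity) hn0

end Pool.Agent.Q187.Sec
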