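import Mathlib
import Pool.Agent.Q187.Sec.Num

set_option autoImplicit false

/-!
# Two by two matrices: primal and dual action; the letters
-/

open Filter Topology Set

namespace Pool.Agent.Q187.Sec

/-- two by two real matrices -/
abbrev M2 := Matrix (Fin 2) (Fin 2) ℝ

/-- denominator of the dual action -/
def dn (M : M2) (z : ℝ) : ℝ := M 1 1 - M 0 1 * z
/-- numerator of the dual action -/
def nm (M : M2) (z : ℝ) : ℝ := M 0 0 * z - M 1 0
/-- the dual action: `(-z, 1) M` is proportional to `(-dual M z, 1)` -/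
noncomputable def dual (M : M2) (z : ℝ) : ℝ := nm M z / dn M z

/-- denominator of the action -/
def pd (M : M2) (u : ℝ) : ℝ := M 1 0 * u + M 1 1
/-- numerator of the action -/
def pn (M : M2) (u : ℝ) : ℝ := M 0 0 * u + M 0 1
/-- the action -/
noncomputable def prim (M : M2) (u : ℝ) : ℝ := pn M u / pd M u

lemma dn_mul {M N : M2} {z : ℝ} (h : dn M z ≠ 0) : dn (M * N) z = dn M z * dn N (dual M z) := by
  have h' : M 1 1 - M 0 1 * z ≠ 0 := h
  unfold dn dual nm dn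
  rw [Matrix.mul_apply, Matrix.mul_apply, Fin.sum_univ_two, Fin.sum_univ_two]
  field_simp
  ring

lemma nm_mul {M N : M2} {z : ℝ} (h : dn M z ≠ 0) : nm (M * N) z = dn M z * nm N (dual M z) := by
  have h' : M 1 1 - M 0 1 * z ≠ 0 := h
  unfold nm dual nm dn
  rw [Matrix.mul_apply, Matrix.mul_apply, Fin.sum_univ_two, Fin.sum_univ_two]
  field_simp
  ring

lemma dual_mul {M N : M2} {z : ℝ} (h : dn M z ≠ 0) : dual (M * N) z = dual N (dual M z) := by
  show nm (M * N) z / dn (M * N) z = nm N (dual M z) / dn N (dual M z)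
  rw [nm_mul h, dn_mul h, mul_div_mul_left _ _ h]

lemma pd_mul {M N : M2} {u : ℝ} (h : pd N u ≠ 0) : pd (M * N) u = pd N u * pd M (prim N u) := by
  have h' : N 1 0 * u + N 1 1 ≠ 0 := h
  unfold pd prim pn pd
  rw [Matrix.mul_apply, Matrix.mul_apply, Fin.sum_univ_two, Fin.sum_univ_two]
  field_simp
  ring

lemma pn_mul {M N : M2} {u : ℝ} (h : pd N u ≠ 0) : pn (M * N) u = pd N u * pn M (prim N u) := by
  have h' : N 1 0 * u + N 1 1 ≠ 0 := h
  unfold pn prim pn pd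
  rw [Matrix.mul_apply, Matrix.mul_apply, Fin.sum_univ_two, Fin.sum_univ_two]
  field_simp
  ring

lemma prim_mul {M N : M2} {u : ℝ} (h : pd N u ≠ 0) : prim (M * N) u = prim M (prim N u) := by
  show pn (M * N) u / pd (M * N) u = pn M (prim N u) / pd M (prim N u)
  rw [pn_mul h, pd_mul h, mul_div_mul_left _ _ h]

lemma dual_sub {M : M2} {z z' : ℝ} (h : dn M z ≠ 0) (h' : dn M z' ≠ 0) :
    dual M z - dual M z' = M.det * (z - z') / (dn M z * dn M z') := by
  rw [Matrix.det_fin_two]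
  unfold dual
  rw [div_sub_div _ _ h h']
  congr 1
  unfold nm dn
  ring

lemma prim_sub {M : M2} {z z' : ℝ} (h : pd M z ≠ 0) (h' : pd M z' ≠ 0) :
    prim M z - prim M z' = M.det * (z - z') / (pd M z * pd M z') := by
  rw [Matrix.det_fin_two]
  unfold prim
  rw [div_sub_div _ _ h h']
  congr 1
  unfold pn pd
  ring

/-- the alphabet -/
inductive L
  | D : L
  | K (i : Bool) : L
  | C (i : Bool) : L
deriving DecidableEq

/-- positions of the two towers -/
def bb : Bool → ℝ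
  | false => 2
  | true => 5

/-- parameters of the two towers -/
def tt (θ : ℝ) : Bool → ℝ
  | false => θ
  | true => 0

/-- exponents of the two towers -/
noncomputable def AA (i : Bool) : ℝ := A i.toNat

/-- multipliers -/
noncomputable def mu (x : ℝ) (i : Bool) : ℝ := x ^ AA i

/-- the letters -/
noncomputable def E (θ x : ℝ) : L → M2
  | L.D => !![x, 0; 0, 1]
  | L.K i => !![1 / 10, -tt θ i; -bb i, 1]
  | L.C i => !![mu x i - 10 * tt θ i * bb i, 10 * tt θ i * (1 - mu x i);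
      -(bb i * (1 - mu x i)), 1 - 10 * mu x i * tt θ i * bb i]

/-- hypotheses on the parameters -/
structure Ok (θ x : ℝ) : Prop where
  h0 : 0 ≤ θ
  h1 : θ ≤ 1 / 1000
  x0 : 0 < x
  x1 : x ≤ 1 / 1000

lemma bb_mem (i : Bool) : 2 ≤ bb i ∧ bb i ≤ 5 := by
  cases i <;> simp [bb] <;> norm_num

variable {θ x : ℝ}

lemma tt_mem (h : Ok θ x) (i : Bool) : 0 ≤ tt θ i ∧ tt θ i ≤ 1 / 1000 := by
  cases i <;> simp only [tt]
  · exact ⟨h.h0, h.h1⟩
  · norm_num

lemma tb_mem (h : Ok θ x) (i : Bool) : 0 ≤ tt θ i * bb i ∧ tt θ i * bb i ≤ 1 / 500 := by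
  cases i <;> simp only [tt, bb]
  · constructor <;> linarith [h.h0, h.h1]
  · norm_num

lemma mu_mem (h : Ok θ x) (i : Bool) : 0 < mu x i ∧ mu x i ≤ 1 / 1000 := by
  refine ⟨Real.rpow_pos_of_pos h.x0 _, ?_⟩
  have h1 : mu x i ≤ x ^ (1 : ℝ) :=
    Real.rpow_le_rpow_of_exponent_ge h.x0 (by linarith [h.x1]) (one_lt_A _).le
  rw [Real.rpow_one] at h1
  exact h1.trans h.x1

lemma dual_D (z : ℝ) : dual (E θ x L.D) z = x * z := by
  simp [dual, nm, dn, E]

lemma dn_D (z : ℝ) : dn (E θ x L.D) z = 1 := by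
  simp [dn, E]

lemma dn_K (i : Bool) (z : ℝ) : dn (E θ x (L.K i)) z = 1 + tt θ i * z := by
  simp [dn, E]

lemma nm_K (i : Bool) (z : ℝ) : nm (E θ x (L.K i)) z = z / 10 + bb i := by
  have : nm (E θ x (L.K i)) z = (1 / 10) * z - (-bb i) := rfl
  rw [this]
  ring

lemma dual_K (i : Bool) (z : ℝ) :
    dual (E θ x (L.K i)) z = (z / 10 + bb i) / (1 + tt θ i * z) := by
  unfold dual
  rw [dn_K, nm_K]

lemma dn_C (i : Bool) (z : ℝ) : dn (E θ x (L.C i)) z =
    1 - 10 * mu x i * (tt θ i * bb i) - 10 * tt θ i * (1 - mu x i) * z := by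
  simp [dn, E]
  ring

lemma nm_C (i : Bool) (z : ℝ) : nm (E θ x (L.C i)) z =
    (mu x i - 10 * (tt θ i * bb i)) * z + bb i * (1 - mu x i) := by
  have : nm (E θ x (L.C i)) z = (mu x i - 10 * tt θ i * bb i) * z - -(bb i * (1 - mu x i)) := rfl
  rw [this]
  ring

lemma det_D : (E θ x L.D).det = x := by
  simp [E, Matrix.det_fin_two]

lemma det_K (i : Bool) : (E θ x (L.K i)).det = 1 / 10 - tt θ i * bb i := by
  simp [E, Matrix.det_fin_two]

lemma det_C (i : Bool) : (E θ x (L.C i)).det = mu x i * (1 - 10 * (tt θ i * bb i)) ^ 2 := by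
  simp [E, Matrix.det_fin_two]
  ring

lemma det_mem (h : Ok θ x) (l : L) : 0 < (E θ x l).det ∧ (E θ x l).det ≤ 1 / 10 := by
  rcases l with _ | i | i
  · rw [det_D]
    exact ⟨h.x0, by linarith [h.x1]⟩
  · rw [det_K]
    obtain ⟨h1, h2⟩ := tb_mem h i
    constructor <;> linarith
  · rw [det_C]
    obtain ⟨h1, h2⟩ := tb_mem h i
    obtain ⟨h3, h4⟩ := mu_mem h i
    have h5 : 0 < 1 - 10 * (tt θ i * bb i) := by linarith
    have h6 : (1 - 10 * (tt θ i * bb i)) ^ 2 ≤ 1 := by nlinarith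
    constructor
    · positivity
    · nlinarith

lemma dn_ge (h : Ok θ x) (l : L) {z : ℝ} (hz : z ∈ Icc (0 : ℝ) 10) : 4 / 5 ≤ dn (E θ x l) z := by
  obtain ⟨hz0, hz1⟩ := hz
  rcases l with _ | i | i
  · rw [dn_D]; norm_num
  · rw [dn_K]
    have := mul_nonneg (tt_mem h i).1 hz0
    linarith
  · rw [dn_C]
    obtain ⟨h1, h2⟩ := tb_mem h i
    obtain ⟨h3, h4⟩ := mu_mem h i
    obtain ⟨h5, h6⟩ := tt_mem h i
    have e1 : mu x i * (tt θ i * bb i) ≤ 1 / 1000 * (1 / 500) := mul_le_mul h4 h2 h1 (by norm_num)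
    have e2 : tt θ i * (1 - mu x i) ≤ 1 / 1000 * 1 :=
      mul_le_mul h6 (by linarith) (by linarith) (by norm_num)
    have e3 : 0 ≤ tt θ i * (1 - mu x i) := mul_nonneg h5 (by linarith)
    have e4 : tt θ i * (1 - mu x i) * z ≤ 1 / 1000 * 1 * 10 := mul_le_mul e2 hz1 hz0 (by norm_num)
    linarith

/-- the inverse of the dual of the letter `K i` -/
noncomputable def hh (θ : ℝ) (i : Bool) (z : ℝ) : ℝ := (z - bb i) / (1 / 10 - tt θ i * z)

lemma hden (h : Ok θ x) (i : Bool) {z : ℝ} (hz : z ∈ Icc (0 : ℝ) 10) :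
    9 / 100 ≤ 1 / 10 - tt θ i * z ∧ 1 / 10 - tt θ i * z ≤ 1 / 10 := by
  obtain ⟨h5, h6⟩ := tt_mem h i
  have e1 : 0 ≤ tt θ i * z := mul_nonneg h5 hz.1
  have e2 : tt θ i * z ≤ 1 / 1000 * 10 := mul_le_mul h6 hz.2 hz.1 (by norm_num)
  constructor <;> linarith

lemma hh_K (h : Ok θ x) (i : Bool) {z : ℝ} (hz : z ∈ Icc (0 : ℝ) 10) :
    hh θ i (dual (E θ x (L.K i)) z) = z := by
  have h1 : 1 + tt θ i * z ≠ 0 := by
    have := mul_nonneg (tt_mem h i).1 hz.1
    linarith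
  obtain ⟨h2, h3⟩ := tb_mem h i
  rw [dual_K]
  unfold hh
  have h4 : 1 / 10 - tt θ i * ((z / 10 + bb i) / (1 + tt θ i * z))
      = (1 / 10 - tt θ i * bb i) / (1 + tt θ i * z) := by
    rw [eq_div_iff h1, sub_mul, mul_assoc, div_mul_cancel₀ _ h1]
    ring
  have h5 : (z / 10 + bb i) / (1 + tt θ i * z) - bb i
      = z * (1 / 10 - tt θ i * bb i) / (1 + tt θ i * z) := by
    rw [eq_div_iff h1, sub_mul, div_mul_cancel₀ _ h1]
    ring
  have h6 : 1 / 10 - tt θ i * bb i ≠ 0 := by linarith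
  rw [h4, h5, div_div_div_cancel_right₀ h1, mul_div_assoc, div_self h6, mul_one]

lemma hh_C (h : Ok θ x) (i : Bool) {z : ℝ} (hz : z ∈ Icc (0 : ℝ) 10) :
    hh θ i (dual (E θ x (L.C i)) z) = mu x i * hh θ i z := by
  have h1 : dn (E θ x (L.C i)) z ≠ 0 := by linarith [dn_ge h (L.C i) hz]
  have h7 : 1 / 10 - tt θ i * z ≠ 0 := by linarith [(hden h i hz).1]
  obtain ⟨h2, h3⟩ := tb_mem h i
  unfold hh
  have h4 : 1 / 10 - tt θ i * dual (E θ x (L.C i)) z
      = (1 - 10 * (tt θ i * bb i)) * (1 / 10 - tt θ i * z) / dn (E θ x (L.C i)) z := by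
    rw [eq_div_iff h1]
    unfold dual
    rw [sub_mul, mul_assoc, div_mul_cancel₀ _ h1, nm_C, dn_C]
    ring
  have h5 : dual (E θ x (L.C i)) z - bb i
      = mu x i * (z - bb i) * (1 - 10 * (tt θ i * bb i)) / dn (E θ x (L.C i)) z := by
    rw [eq_div_iff h1]
    unfold dual
    rw [sub_mul, div_mul_cancel₀ _ h1, nm_C, dn_C]
    ring
  have h6 : 1 - 10 * (tt θ i * bb i) ≠ 0 := by linarith
  rw [h4, h5, div_div_div_cancel_right₀ h1,
    show mu x i * (z - bb i) * (1 - 10 * (tt θ i * bb i))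
      = (1 - 10 * (tt θ i * bb i)) * (mu x i * (z - bb i)) by ring, mul_div_mul_left _ _ h6,
    mul_div_assoc]

lemma region_D (h : Ok θ x) {z : ℝ} (hz : z ∈ Icc (0 : ℝ) 10) :
    dual (E θ x L.D) z ∈ Icc (0 : ℝ) (1 / 100) := by
  rw [dual_D]
  refine ⟨mul_nonneg h.x0.le hz.1, ?_⟩
  have : x * z ≤ 1 / 1000 * 10 := mul_le_mul h.x1 hz.2 hz.1 (by norm_num)
  linarith

lemma region_K (h : Ok θ x) (i : Bool) {z : ℝ} (hz : z ∈ Icc (0 : ℝ) 10) :
    dual (E θ x (L.K i)) z ∈ Icc (bb i - 1 / 10) (bb i + 11 / 10) := by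
  rw [dual_K]
  obtain ⟨h5, h6⟩ := tt_mem h i
  obtain ⟨h7, h8⟩ := bb_mem i
  have e1 : 0 ≤ tt θ i * z := mul_nonneg h5 hz.1
  have e2 : tt θ i * z ≤ 1 / 1000 * 10 := mul_le_mul h6 hz.2 hz.1 (by norm_num)
  have hpos : 0 < 1 + tt θ i * z := by linarith
  constructor
  · rw [le_div_iff₀ hpos]
    nlinarith [hz.1]
  · rw [div_le_iff₀ hpos]
    nlinarith [hz.2]

lemma region_C (h : Ok θ x) (i : Bool) {z : ℝ} (hz : z ∈ Icc (0 : ℝ) 10) :
    dual (E θ x (L.C i)) z ∈ Icc (bb i - 1 / 10) (bb i + 11 / 10) := by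
  have h1 := dn_ge h (L.C i) hz
  have h0 : dn (E θ x (L.C i)) z ≠ 0 := by linarith
  have h5 : dual (E θ x (L.C i)) z - bb i
      = mu x i * (z - bb i) * (1 - 10 * (tt θ i * bb i)) / dn (E θ x (L.C i)) z := by
    rw [eq_div_iff h0]
    unfold dual
    rw [sub_mul, div_mul_cancel₀ _ h0, nm_C, dn_C]
    ring
  obtain ⟨h2, h3⟩ := tb_mem h i
  obtain ⟨h6, h7⟩ := bb_mem i
  obtain ⟨h8, h9⟩ := mu_mem h i
  have hb : |z - bb i| ≤ 10 := by
    rw [abs_le]; constructor <;> linarith [hz.1, hz.2]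
  have hc : |dual (E θ x (L.C i)) z - bb i| ≤ 1 / 10 := by
    rw [h5, abs_div, abs_mul, abs_mul, abs_of_pos h8, abs_of_pos (by linarith : 0 < dn (E θ x (L.C i)) z),
      div_le_iff₀ (by linarith)]
    have e1 : |1 - 10 * (tt θ i * bb i)| ≤ 1 := by
      rw [abs_le]; constructor <;> linarith
    calc mu x i * |z - bb i| * |1 - 10 * (tt θ i * bb i)| ≤ 1 / 1000 * 10 * 1 := by gcongr
      _ ≤ 1 / 10 * dn (E θ x (L.C i)) z := by linarith
  obtain ⟨e2, e3⟩ := abs_le.1 hc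
  constructor <;> linarith

lemma dual_mem (h : Ok θ x) (l : L) {z : ℝ} (hz : z ∈ Icc (0 : ℝ) 10) :
    dual (E θ x l) z ∈ Icc (0 : ℝ) (31 / 5) := by
  rcases l with _ | i | i
  · obtain ⟨h1, h2⟩ := region_D h hz
    constructor <;> linarith
  · obtain ⟨h1, h2⟩ := region_K h i hz
    obtain ⟨h3, h4⟩ := bb_mem i
    constructor <;> linarith
  · obtain ⟨h1, h2⟩ := region_C h i hz
    obtain ⟨h3, h4⟩ := bb_mem i
    constructor <;> linarith

lemma dual_mem' (h : Ok θ x) (l : L) {z : ℝ} (hz : z ∈ Icc (0 : ℝ) 10) :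
    dual (E θ x l) z ∈ Icc (0 : ℝ) 10 := by
  obtain ⟨h1, h2⟩ := dual_mem h l hz
  constructor <;> linarith

/-- the dual of the letters other than `D` -/
lemma region_ne (h : Ok θ x) {l : L} (hl : l ≠ L.D) {z : ℝ} (hz : z ∈ Icc (0 : ℝ) 10) :
    dual (E θ x l) z ∈ Icc (9 / 5 : ℝ) (31 / 5) := by
  rcases l with _ | i | i
  · exact absurd rfl hl
  · obtain ⟨h1, h2⟩ := region_K h i hz
    obtain ⟨h3, h4⟩ := bb_mem i
    constructor <;> linarith
  · obtain ⟨h1, h2⟩ := region_C h i hz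
    obtain ⟨h3, h4⟩ := bb_mem i
    constructor <;> linarith

lemma dual_inj (h : Ok θ x) (l : L) {z z' : ℝ} (hz : z ∈ Icc (0 : ℝ) 10) (hz' : z' ∈ Icc (0 : ℝ) 10)
    (he : dual (E θ x l) z = dual (E θ x l) z') : z = z' := by
  have h1 := dn_ge h l hz
  have h2 := dn_ge h l hz'
  have h3 := dual_sub (M := E θ x l) (z := z) (z' := z') (by linarith) (by linarith)
  rw [he, sub_self] at h3
  have h4 := (det_mem h l).1
  have h5 : (E θ x l).det * (z - z') = 0 := by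
    rcases div_eq_zero_iff.1 h3.symm with h6 | h6
    · exact h6
    · exfalso
      have : 0 < dn (E θ x l) z * dn (E θ x l) z' := by
        apply mul_pos <;> linarith
      linarith
  rcases mul_eq_zero.1 h5 with h6 | h6
  · linarith
  · linarith

lemma dual_contr (h : Ok θ x) (l : L) {z z' : ℝ} (hz : z ∈ Icc (0 : ℝ) 10)
    (hz' : z' ∈ Icc (0 : ℝ) 10) :
    |dual (E θ x l) z - dual (E θ x l) z'| ≤ 1 / 5 * |z - z'| := by
  have h1 := dn_ge h l hz
  have h2 := dn_ge h l hz'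
  have h3 := dual_sub (M := E θ x l) (z := z) (z' := z') (by linarith) (by linarith)
  obtain ⟨h4, h5⟩ := det_mem h l
  have hpos : 0 < dn (E θ x l) z * dn (E θ x l) z' := by
    apply mul_pos <;> linarith
  rw [h3, abs_div, abs_mul, abs_of_pos h4, abs_of_pos hpos, div_le_iff₀ hpos]
  have h6 : 16 / 25 ≤ dn (E θ x l) z * dn (E θ x l) z' := by nlinarith
  have h7 := abs_nonneg (z - z')
  nlinarith

end Pool.Agent.Q187.Sec
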