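import Mathlib
import Pool.Agent.Q187.Sec.Mob

set_option autoImplicit false

/-!
# Periodic orbits of the dual system do not meet for small parameters
-/

open Filter Topology Set

namespace Pool.Agent.Q187.Sec

/-- a periodic orbit of the dual system -/
structure Orb (θ x : ℝ) (n : ℕ) (w : ℕ → L) (y : ℕ → ℝ) : Prop where
  mem : ∀ m, y m ∈ Icc (0 : ℝ) 10
  step : ∀ m, y (m + 1) = dual (E θ x (w m)) (y m)
  pw : ∀ m, w (m + n) = w m
  py : ∀ m, y (m + n) = y m

variable {θ x : ℝ} {n : ℕ} {w w' : ℕ → L} {y y' : ℕ → ℝ}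

lemma posform (h : Ok θ x) (ho : Orb θ x n w y) (t : ℕ) (hw : w t ≠ L.D) (d : ℕ) :
    ∃ a ≤ d, ∃ X ∈ Icc (9 / 5 : ℝ) (31 / 5), y (t + 1 + d) = x ^ a * X := by
  induction d with
  | zero =>
    refine ⟨0, le_refl _, y (t + 1), ?_, by simp⟩
    rw [ho.step]
    exact region_ne h hw (ho.mem _)
  | succ d ih =>
    by_cases hD : w (t + 1 + d) = L.D
    · obtain ⟨a, ha, X, hX, hy⟩ := ih
      refine ⟨a + 1, by omega, X, hX, ?_⟩
      rw [← add_assoc, ho.step, hD, dual_D, hy]
      ring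
    · refine ⟨0, by omega, y (t + 1 + (d + 1)), ?_, by simp⟩
      rw [← add_assoc, ho.step]
      exact region_ne h hD (ho.mem _)

lemma Cform (h : Ok θ x) (ho : Orb θ x n w y) (i : Bool) (t : ℕ) (hw : w t ≠ L.C i) (d : ℕ) :
    ∃ b ≤ d, ∃ t', t ≤ t' ∧ t' + b = t + d ∧ w t' ≠ L.C i ∧
      hh θ i (y (t + 1 + d)) = mu x i ^ b * hh θ i (y (t' + 1)) := by
  induction d with
  | zero => exact ⟨0, le_refl _, t, le_refl _, rfl, hw, by simp⟩
  | succ d ih =>
    by_cases hC : w (t + 1 + d) = L.C i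
    · obtain ⟨b, hb, t', ht, htb, hw', hy⟩ := ih
      refine ⟨b + 1, by omega, t', ht, by omega, hw', ?_⟩
      rw [← add_assoc, ho.step, hC, hh_C h i (ho.mem _), hy]
      ring
    · refine ⟨0, by omega, t + 1 + d, by omega, by omega, hC, ?_⟩
      rw [pow_zero, one_mul]
      rfl

lemma Call (h : Ok θ x) (ho : Orb θ x n w y) (i : Bool) (t d : ℕ)
    (hw : ∀ m < d, w (t + m) = L.C i) :
    hh θ i (y (t + d)) = mu x i ^ d * hh θ i (y t) := by
  induction d with
  | zero => simp
  | succ d ih =>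
    rw [← add_assoc, ho.step, hw d (by omega), hh_C h i (ho.mem _),
      ih (fun m hm => hw m (by omega))]
    ring

lemma core (h : Ok θ x) (hn : 1 ≤ n) (ho : Orb θ x n w y) (ho' : Orb θ x n w' y') (i : Bool)
    (T : ℕ) (hT : 3 * n ≤ T) (hy : y (T + 1) = y' (T + 1)) (hw : w T = L.K i)
    (hw' : w' T = L.C i) :
    ∃ a ≤ n, ∃ a' ≤ n, ∃ b ≤ n, ∃ X ∈ Icc (9 / 5 : ℝ) 46, ∃ X' ∈ Icc (9 / 5 : ℝ) 46,
      x ^ a * X = mu x i ^ (b + 1) * (x ^ a' * X') := by
  obtain ⟨hm0, hm1⟩ := mu_mem h i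
  have hx0 := h.x0
  -- the basic equation
  have h1 : y T = mu x i * hh θ i (y' T) := by
    have e1 : hh θ i (y (T + 1)) = y T := by rw [ho.step, hw, hh_K h i (ho.mem _)]
    have e2 : hh θ i (y' (T + 1)) = mu x i * hh θ i (y' T) := by
      rw [ho'.step, hw', hh_C h i (ho'.mem _)]
    rw [← e1, hy, e2]
  obtain ⟨t0, ht0⟩ : ∃ t0, T = t0 + n := ⟨T - n, by omega⟩
  -- the left hand side
  obtain ⟨a, ha, X, hX, hyT⟩ : ∃ a ≤ n, ∃ X ∈ Icc (9 / 5 : ℝ) (31 / 5), y T = x ^ a * X := by
    have hwt : w t0 ≠ L.D := by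
      rw [← ho.pw t0, ← ht0, hw]
      exact fun h => by cases h
    obtain ⟨a, ha, X, hX, hy⟩ := posform h ho t0 hwt (n - 1)
    refine ⟨a, by omega, X, hX, ?_⟩
    rw [← hy]
    congr 1
    omega
  have hXpos : 0 < X := by linarith [hX.1]
  have hlhs : 0 < y T := by rw [hyT]; positivity
  by_cases hall : ∀ m < n, w' (t0 + m) = L.C i
  · exfalso
    have h2 := Call h ho' i t0 n hall
    rw [ho'.py] at h2
    have h3 : mu x i ^ n < 1 := pow_lt_one₀ hm0.le (by linarith) (by omega)
    have h4 : hh θ i (y' t0) = 0 := by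
      have : (1 - mu x i ^ n) * hh θ i (y' t0) = 0 := by linarith
      rcases mul_eq_zero.1 this with h5 | h5
      · linarith
      · exact h5
    rw [h1, ht0, ho'.py, h4, mul_zero] at hlhs
    exact lt_irrefl _ hlhs
  · push Not at hall
    obtain ⟨m, hm, hwm⟩ := hall
    obtain ⟨b, hb, t', ht1, ht2, hwt, hht⟩ := Cform h ho' i (t0 + m) hwm (n - 1 - m)
    have e1 : t0 + m + 1 + (n - 1 - m) = T := by omega
    rw [e1] at hht
    rw [hht] at h1
    have h2 : y T = mu x i ^ (b + 1) * hh θ i (y' (t' + 1)) := by rw [h1]; ring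
    -- reduction to a form of the last factor
    suffices hs : ∃ a' ≤ n, ∃ X' ∈ Icc (9 / 5 : ℝ) 46, hh θ i (y' (t' + 1)) = x ^ a' * X' by
      obtain ⟨a', ha', X', hX', hs'⟩ := hs
      refine ⟨a, ha, a', ha', b, by omega, X, ⟨hX.1, by linarith [hX.2]⟩, X', hX', ?_⟩
      rw [← hyT, h2, hs']
    have hneg : ¬ hh θ i (y' (t' + 1)) ≤ 0 := by
      intro hneg
      have : mu x i ^ (b + 1) * hh θ i (y' (t' + 1)) ≤ 0 :=
        mul_nonpos_of_nonneg_of_nonpos (by positivity) hneg
      linarith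
    have hdenpos := hden h i (ho'.mem (t' + 1))
    have hsign : y' (t' + 1) ≤ bb i → False := by
      intro hle
      apply hneg
      unfold hh
      apply div_nonpos_of_nonpos_of_nonneg <;> linarith
    -- points of the other tower
    have hother : ∀ j, j ≠ i → y' (t' + 1) ∈ Icc (bb j - 1 / 10) (bb j + 11 / 10) →
        ∃ a' ≤ n, ∃ X' ∈ Icc (9 / 5 : ℝ) 46, hh θ i (y' (t' + 1)) = x ^ a' * X' := by
      intro j hj hmem
      rcases i with _ | _
      · have hj' : j = true := by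
          rcases j with _ | _
          · exact absurd rfl hj
          · rfl
        subst hj'
        refine ⟨0, by omega, hh θ false (y' (t' + 1)), ?_, by simp⟩
        simp only [bb] at hmem
        unfold hh
        simp only [bb]
        constructor
        · rw [le_div_iff₀ (by linarith)]
          nlinarith [hmem.1]
        · rw [div_le_iff₀ (by linarith)]
          nlinarith [hmem.2]
      · have hj' : j = false := by
          rcases j with _ | _
          · rfl
          · exact absurd rfl hj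
        subst hj'
        exfalso
        apply hsign
        simp only [bb] at hmem ⊢
        linarith [hmem.2]
    rcases hlet : w' t' with _ | j | j
    · exfalso
      apply hsign
      rw [ho'.step, hlet]
      obtain ⟨e2, e3⟩ := region_D h (ho'.mem t')
      linarith [(bb_mem i).1]
    · by_cases hji : j = i
      · subst hji
        have h3 : hh θ j (y' (t' + 1)) = y' t' := by rw [ho'.step, hlet, hh_K h j (ho'.mem _)]
        obtain ⟨t1, ht1'⟩ : ∃ t1, t' = t1 + n := ⟨t' - n, by omega⟩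
        have hwt1 : w' t1 ≠ L.D := by
          rw [← ho'.pw t1, ← ht1', hlet]
          exact fun h => by cases h
        obtain ⟨a', ha', X', hX', hy1⟩ := posform h ho' t1 hwt1 (n - 1)
        refine ⟨a', by omega, X', ⟨hX'.1, by linarith [hX'.2]⟩, ?_⟩
        rw [h3, ← hy1]
        congr 1
        omega
      · apply hother j hji
        rw [ho'.step, hlet]
        exact region_K h j (ho'.mem _)
    · have hji : j ≠ i := by
        rintro rfl
        exact hwt hlet
      apply hother j hji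
      rw [ho'.step, hlet]
      exact region_C h j (ho'.mem _)

lemma AA_irr (i : Bool) : Irrational (AA i) := A_irrational _

/-- the exponents are bounded away from zero -/
lemma exists_delta (n : ℕ) : ∃ δ : ℝ, 0 < δ ∧ ∀ i : Bool, ∀ a ≤ n, ∀ a' ≤ n, ∀ b ≤ n,
    δ ≤ |AA i * ((b : ℝ) + 1) + a' - a| := by
  classical
  set Sf : Finset (Bool × ℕ × ℕ × ℕ) := Finset.univ ×ˢ Finset.range (n + 1) ×ˢ
    Finset.range (n + 1) ×ˢ Finset.range (n + 1) with hSf
  set f : Bool × ℕ × ℕ × ℕ → ℝ := fun p => |AA p.1 * ((p.2.2.2 : ℝ) + 1) + p.2.2.1 - p.2.1| with hf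
  have hne : Sf.Nonempty := by
    refine ⟨(true, 0, 0, 0), ?_⟩
    rw [hSf]
    simp
  obtain ⟨p, -, hp⟩ := Finset.exists_min_image Sf f hne
  have hpos : ∀ p, 0 < f p := by
    intro p
    simp only [hf]
    rw [abs_pos]
    intro h0
    have h1 : AA p.1 * (((p.2.2.2 + 1 : ℕ) : ℤ) : ℝ) = ((p.2.1 : ℤ) - (p.2.2.1 : ℤ) : ℤ) := by
      push_cast
      linarith
    have h2 : Irrational (AA p.1 * (((p.2.2.2 + 1 : ℕ) : ℤ) : ℝ)) :=
      (AA_irr p.1).mul_intCast (by
        have := Nat.succ_ne_zero p.2.2.2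
        exact_mod_cast this)
    rw [h1] at h2
    exact h2.ne_int _ rfl
  refine ⟨f p, hpos p, fun i a ha a' ha' b hb => ?_⟩
  have := hp (i, a, a', b) (by
    rw [hSf]
    simp only [Finset.mem_product, Finset.mem_univ, Finset.mem_range, true_and]
    omega)
  exact this

/-- **Separation for small parameters.** -/
theorem sep (n : ℕ) (hn : 1 ≤ n) : ∃ x₀ : ℝ, 0 < x₀ ∧ ∀ θ x : ℝ, Ok θ x → x < x₀ →
    ∀ (w w' : ℕ → L) (y y' : ℕ → ℝ), Orb θ x n w y → Orb θ x n w' y' → ∀ T, 3 * n ≤ T →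
      y (T + 1) = y' (T + 1) → w T = w' T := by
  obtain ⟨δ, hδ, hall⟩ := exists_delta n
  refine ⟨(1 / 30 : ℝ) ^ (1 / δ), by positivity, fun θ x h hx w w' y y' ho ho' T hT hy => ?_⟩
  have hx0 := h.x0
  have hxδ : x ^ δ < 1 / 30 := by
    calc x ^ δ < ((1 / 30 : ℝ) ^ (1 / δ)) ^ δ := Real.rpow_lt_rpow hx0.le hx hδ
      _ = 1 / 30 := by
        rw [← Real.rpow_mul (by norm_num), one_div_mul_cancel hδ.ne', Real.rpow_one]
  -- no collision inside of a tower
  have hcore : ∀ (w w' : ℕ → L) (y y' : ℕ → ℝ), Orb θ x n w y → Orb θ x n w' y' →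
      y (T + 1) = y' (T + 1) → ∀ i, w T = L.K i → w' T = L.C i → False := by
    intro w w' y y' ho ho' hy i hw hw'
    obtain ⟨a, ha, a', ha', b, hb, X, hX, X', hX', heq⟩ := core h hn ho ho' i T hT hy hw hw'
    have hX0 : 0 < X := by linarith [hX.1]
    have hX0' : 0 < X' := by linarith [hX'.1]
    set e : ℝ := AA i * ((b : ℝ) + 1) + a' - a with he
    have h1 : x ^ e * X' = X := by
      have h2 : x ^ (a : ℝ) * (x ^ e * X') = x ^ (a : ℝ) * X := by
        have h3 : x ^ (a : ℝ) * x ^ e = mu x i ^ (b + 1) * x ^ a' := by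
          rw [← Real.rpow_add hx0, he]
          have h4 : (a : ℝ) + (AA i * ((b : ℝ) + 1) + a' - a) = AA i * ((b + 1 : ℕ) : ℝ) + (a' : ℝ) := by
            push_cast
            ring
          rw [h4, Real.rpow_add hx0, Real.rpow_mul hx0.le, Real.rpow_natCast, Real.rpow_natCast]
          rfl
        rw [← mul_assoc, h3, Real.rpow_natCast, heq]
        ring
      exact mul_left_cancel₀ (Real.rpow_pos_of_pos hx0 _).ne' h2
    have h2 := hall i a ha a' ha' b hb
    rw [← he] at h2
    rcases le_abs'.1 h2 with h3 | h3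
    · -- negative exponent
      have h4 : x ^ (-δ) ≤ x ^ e := Real.rpow_le_rpow_of_exponent_ge hx0 (by linarith [h.x1]) h3
      have h5 : 30 < x ^ (-δ) := by
        rw [Real.rpow_neg hx0.le, ← one_div, lt_div_iff₀ (Real.rpow_pos_of_pos hx0 _)]
        linarith
      have h6 : 30 * X' ≤ X := by
        rw [← h1]
        exact mul_le_mul_of_nonneg_right (h5.le.trans h4) hX0'.le
      linarith [hX.2, hX'.1]
    · have h4 : x ^ e ≤ x ^ δ := Real.rpow_le_rpow_of_exponent_ge hx0 (by linarith [h.x1]) h3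
      have h6 : X ≤ 1 / 30 * X' := by
        rw [← h1]
        exact mul_le_mul_of_nonneg_right (h4.trans hxδ.le) hX0'.le
      linarith [hX.1, hX'.2]
  have hreg : ∀ (w : ℕ → L) (y : ℕ → ℝ), Orb θ x n w y → (w T = L.D ∧ y (T + 1) ≤ 1 / 100) ∨
      ∃ i, (w T = L.K i ∨ w T = L.C i) ∧ y (T + 1) ∈ Icc (bb i - 1 / 10) (bb i + 11 / 10) := by
    intro w y ho
    rcases hw : w T with _ | i | i
    · left
      refine ⟨rfl, ?_⟩
      rw [ho.step, hw]
      exact (region_D h (ho.mem _)).2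
    · right
      refine ⟨i, Or.inl rfl, ?_⟩
      rw [ho.step, hw]
      exact region_K h i (ho.mem _)
    · right
      refine ⟨i, Or.inr rfl, ?_⟩
      rw [ho.step, hw]
      exact region_C h i (ho.mem _)
  rcases hreg w y ho with ⟨hw, hyw⟩ | ⟨i, hw, hyw⟩ <;>
    rcases hreg w' y' ho' with ⟨hw', hyw'⟩ | ⟨j, hw', hyw'⟩
  · rw [hw, hw']
  · exfalso
    have := (bb_mem j).1
    linarith [hyw'.1]
  · exfalso
    have := (bb_mem i).1
    linarith [hyw.1]
  · have hij : i = j := by
      rcases i with _ | _ <;> rcases j with _ | _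
      · rfl
      · exfalso
        simp only [bb] at hyw hyw'
        linarith [hyw.2, hyw'.1]
      · exfalso
        simp only [bb] at hyw hyw'
        linarith [hyw.1, hyw'.2]
      · rfl
    subst hij
    rcases hw with hw | hw <;> rcases hw' with hw' | hw'
    · rw [hw, hw']
    · exact (hcore w w' y y' ho ho' hy i hw hw').elim
    · exact (hcore w' w y' y ho' ho hy.symm i hw' hw).elim
    · rw [hw, hw']

end Pool.Agent.Q187.Sec
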