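import Mathlib
import Pool.Agent.Q187.Sec.Sep

set_option autoImplicit false

/-!
# Fixed points of the dual system as analytic functions of the parameter
-/

open Filter Topology Set

namespace Pool.Agent.Q187.Sec

/-- the matrix of a word -/
noncomputable def EE (θ x : ℝ) (w : List L) : M2 := (w.map (E θ x)).prod

/-- the dual action of a word -/
noncomputable def G (θ x : ℝ) (w : List L) (z : ℝ) : ℝ := w.foldl (fun z l => dual (E θ x l) z) z

lemma EE_cons (θ x : ℝ) (l : L) (w : List L) : EE θ x (l :: w) = E θ x l * EE θ x w := by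
  simp [EE]

lemma G_cons (θ x : ℝ) (l : L) (w : List L) (z : ℝ) :
    G θ x (l :: w) z = G θ x w (dual (E θ x l) z) := rfl

variable {θ x : ℝ}

lemma G_mem (h : Ok θ x) (w : List L) {z : ℝ} (hz : z ∈ Icc (0 : ℝ) 10) :
    G θ x w z ∈ Icc (0 : ℝ) 10 := by
  induction w generalizing z with
  | nil => exact hz
  | cons l w ih => rw [G_cons]; exact ih (dual_mem' h l hz)

lemma G_contr (h : Ok θ x) (w : List L) {z z' : ℝ} (hz : z ∈ Icc (0 : ℝ) 10)
    (hz' : z' ∈ Icc (0 : ℝ) 10) :
    |G θ x w z - G θ x w z'| ≤ (1 / 5) ^ w.length * |z - z'| := by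
  induction w generalizing z z' with
  | nil => simp [G]
  | cons l w ih =>
    rw [G_cons, G_cons]
    refine (ih (dual_mem' h l hz) (dual_mem' h l hz')).trans ?_
    rw [List.length_cons, pow_succ, mul_assoc]
    exact mul_le_mul_of_nonneg_left (dual_contr h l hz hz') (by positivity)

lemma dn_EE (h : Ok θ x) (w : List L) {z : ℝ} (hz : z ∈ Icc (0 : ℝ) 10) :
    (4 / 5) ^ w.length ≤ dn (EE θ x w) z ∧ dual (EE θ x w) z = G θ x w z := by
  induction w generalizing z with
  | nil => simp [EE, dn, dual, nm, G]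
  | cons l w ih =>
    have h1 := dn_ge h l hz
    have h2 : dn (E θ x l) z ≠ 0 := by linarith
    obtain ⟨h3, h4⟩ := ih (dual_mem' h l hz)
    rw [EE_cons, dn_mul h2, dual_mul h2, G_cons, h4, List.length_cons, pow_succ, mul_comm]
    refine ⟨?_, rfl⟩
    rw [mul_comm, mul_comm (dn _ _)]
    exact mul_le_mul h3 h1 (by norm_num) ((by positivity : (0 : ℝ) ≤ (4 / 5) ^ w.length).trans h3)

lemma det_EE (h : Ok θ x) (w : List L) :
    0 < (EE θ x w).det ∧ (EE θ x w).det ≤ (1 / 10) ^ w.length := by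
  induction w with
  | nil => simp [EE]
  | cons l w ih =>
    obtain ⟨h1, h2⟩ := det_mem h l
    rw [EE_cons, Matrix.det_mul, List.length_cons, pow_succ, mul_comm]
    exact ⟨mul_pos ih.1 h1, mul_le_mul ih.2 h2 h1.le (by positivity)⟩

/-- fixed points of words -/
lemma exists_fixed (h : Ok θ x) (w : List L) : ∃ Y ∈ Icc (0 : ℝ) 10, G θ x w Y = Y := by
  have hcont : ContinuousOn (G θ x w) (Icc 0 10) := by
    have : LipschitzOnWith 1 (G θ x w) (Icc 0 10) := by
      apply LipschitzOnWith.of_dist_le_mul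
      intro z hz z' hz'
      rw [Real.dist_eq, Real.dist_eq, NNReal.coe_one, one_mul]
      refine (G_contr h w hz hz').trans ?_
      have : ((1 : ℝ) / 5) ^ w.length ≤ 1 := pow_le_one₀ (by norm_num) (by norm_num)
      nlinarith [abs_nonneg (z - z')]
    exact this.continuousOn
  obtain ⟨Y, hY, hfix⟩ := exists_mem_Icc_isFixedPt_of_mapsTo hcont (by norm_num)
    (fun z hz => G_mem h w hz)
  exact ⟨Y, hY, hfix⟩

lemma G_pos (h : Ok θ x) (w : List L) : ∀ z ∈ Icc (0 : ℝ) 10, (0 < z ∨ ∃ l ∈ w, l ≠ L.D) →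
    0 < G θ x w z := by
  induction w with
  | nil =>
    intro z _ hz
    rcases hz with hz | ⟨l, hl, -⟩
    · exact hz
    · simp at hl
  | cons l w ih =>
    intro z hz hor
    rw [G_cons]
    apply ih _ (dual_mem' h l hz)
    by_cases hl : l = L.D
    · subst hl
      rcases hor with h1 | ⟨l', hl', hne⟩
      · left
        rw [dual_D]
        exact mul_pos h.x0 h1
      · right
        rcases List.mem_cons.1 hl' with rfl | h2
        · exact absurd rfl hne
        · exact ⟨l', h2, hne⟩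
    · left
      linarith [(region_ne h hl hz).1]

lemma EE_D (w : List L) (hw : ∀ l ∈ w, l = L.D) : EE θ x w = !![x ^ w.length, 0; 0, 1] := by
  induction w with
  | nil =>
    simp [EE, Matrix.one_fin_two]
  | cons l w ih =>
    have hl : l = L.D := hw l List.mem_cons_self
    rw [EE_cons, ih fun l hl => hw l (List.mem_cons_of_mem _ hl), hl, List.length_cons]
    simp [E, Matrix.mul_fin_two, pow_succ, mul_comm]

/-- the formula for the fixed point -/
noncomputable def phi (θ : ℝ) (w : List L) (x : ℝ) : ℝ :=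
  -2 * EE θ x w 1 0 / ((EE θ x w 1 1 - EE θ x w 0 0) +
    √((EE θ x w 1 1 - EE θ x w 0 0) ^ 2 + 4 * EE θ x w 0 1 * EE θ x w 1 0))

lemma phi_spec (h : Ok θ x) {w : List L} (hw : w ≠ []) {Y : ℝ} (hY : Y ∈ Icc (0 : ℝ) 10)
    (hfix : G θ x w Y = Y) :
    0 < (EE θ x w 1 1 - EE θ x w 0 0) ^ 2 + 4 * EE θ x w 0 1 * EE θ x w 1 0 ∧
    0 < (EE θ x w 1 1 - EE θ x w 0 0) +
      √((EE θ x w 1 1 - EE θ x w 0 0) ^ 2 + 4 * EE θ x w 0 1 * EE θ x w 1 0) ∧
    phi θ w x = Y := by
  obtain ⟨h1, h2⟩ := dn_EE h w hY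
  obtain ⟨h3, h4⟩ := det_EE h w
  rw [hfix] at h2
  have hlen : w.length ≠ 0 := by simpa using hw
  have h5 : (16 / 25 : ℝ) ^ w.length ≤ dn (EE θ x w) Y ^ 2 := by
    calc (16 / 25 : ℝ) ^ w.length = ((4 / 5) ^ w.length) ^ 2 := by
          rw [← pow_mul, mul_comm, pow_mul]; norm_num
      _ ≤ _ := by gcongr
  have h6 : (1 / 10 : ℝ) ^ w.length < (16 / 25) ^ w.length :=
    pow_lt_pow_left₀ (by norm_num) (by norm_num) hlen
  have hρ : 0 < dn (EE θ x w) Y := lt_of_lt_of_le (by positivity) h1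
  -- entries
  have hcD : 0 < dn (EE θ x w) Y - EE θ x w 0 0 := by
    by_cases hall : ∀ l ∈ w, l = L.D
    · have hE := EE_D (θ := θ) (x := x) w hall
      have hlt : x ^ w.length < 1 := pow_lt_one₀ h.x0.le (by linarith [h.x1]) hlen
      rw [hE]
      simp [dn, hlt]
    · push Not at hall
      have hY0 : 0 < Y := by
        rw [← hfix]
        exact G_pos h w Y hY (Or.inr hall)
      have hz0 : (0 : ℝ) ∈ Icc (0 : ℝ) 10 := by constructor <;> norm_num
      have hG0 := G_pos h w 0 hz0 (Or.inr hall)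
      obtain ⟨h7, h8⟩ := dn_EE h w hz0
      rw [← h8] at hG0
      have h9 : 0 < nm (EE θ x w) 0 := by
        have h10 : 0 < dn (EE θ x w) 0 := lt_of_lt_of_le (by positivity) h7
        unfold dual at hG0
        rcases div_pos_iff.1 hG0 with ⟨h11, -⟩ | ⟨-, h11⟩
        · exact h11
        · linarith
      have h10 : nm (EE θ x w) Y = Y * dn (EE θ x w) Y := by
        have : dual (EE θ x w) Y = Y := h2
        unfold dual at this
        rwa [div_eq_iff hρ.ne'] at this
      unfold nm at h9 h10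
      have h11 : Y * (dn (EE θ x w) Y - EE θ x w 0 0) = -EE θ x w 1 0 := by linarith
      have h12 : 0 < -EE θ x w 1 0 := by linarith
      rw [← h11] at h12
      exact pos_of_mul_pos_right h12 hY0.le
  set a := EE θ x w 0 0 with ha
  set b := EE θ x w 0 1 with hb
  set c := EE θ x w 1 0 with hc
  set d := EE θ x w 1 1 with hd
  have hdn : dn (EE θ x w) Y = d - b * Y := rfl
  have hnm : nm (EE θ x w) Y = a * Y - c := rfl
  have hdet : (EE θ x w).det = a * d - b * c := by
    rw [Matrix.det_fin_two]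
  have hq : a * Y - c = Y * (d - b * Y) := by
    have : dual (EE θ x w) Y = Y := h2
    unfold dual at this
    rw [div_eq_iff hρ.ne', hnm, hdn] at this
    exact this
  rw [hdn] at h5 hρ hcD
  -- `ρ - σ > 0`
  have h7 : 0 < (d - b * Y) - (a + b * Y) := by
    have h8 : (d - b * Y) * (a + b * Y) = a * d - b * c := by
      linear_combination -b * hq
    rw [hdet] at h4 h3
    have h9 : (d - b * Y) * (a + b * Y) < (d - b * Y) * (d - b * Y) := by
      rw [h8, ← sq]
      linarith
    have := lt_of_mul_lt_mul_left h9 hρ.le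
    linarith
  have hΔ : (d - a) ^ 2 + 4 * b * c = ((d - b * Y) - (a + b * Y)) ^ 2 := by
    linear_combination (-4 * b) * hq
  refine ⟨?_, ?_, ?_⟩
  · rw [hΔ]; positivity
  · rw [hΔ, Real.sqrt_sq h7.le]
    linarith
  · unfold phi
    rw [← ha, ← hb, ← hc, ← hd, hΔ, Real.sqrt_sq h7.le, div_eq_iff (by linarith)]
    linear_combination 2 * hq

lemma contDiffAt_E (θ : ℝ) {x : ℝ} (hx : x ≠ 0) (l : L) (i j : Fin 2) :
    ContDiffAt ℝ ⊤ (fun x => E θ x l i j) x := by
  have hmu : ∀ i, ContDiffAt ℝ ⊤ (fun x => mu x i) x := fun i =>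
    Real.contDiffAt_rpow_const_of_ne hx
  rcases l with _ | k | k
  · fin_cases i <;> fin_cases j
    · exact contDiffAt_id
    · exact contDiffAt_const
    · exact contDiffAt_const
    · exact contDiffAt_const
  · fin_cases i <;> fin_cases j <;> exact contDiffAt_const
  · fin_cases i <;> fin_cases j
    · exact (hmu k).sub contDiffAt_const
    · exact contDiffAt_const.mul (contDiffAt_const.sub (hmu k))
    · exact (contDiffAt_const.mul (contDiffAt_const.sub (hmu k))).neg
    · exact contDiffAt_const.sub (((contDiffAt_const.mul (hmu k)).mul contDiffAt_const).mul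
        contDiffAt_const)

lemma contDiffAt_EE (θ : ℝ) {x : ℝ} (hx : x ≠ 0) (w : List L) :
    ∀ i j : Fin 2, ContDiffAt ℝ ⊤ (fun x => EE θ x w i j) x := by
  induction w with
  | nil => intro i j; exact contDiffAt_const
  | cons l w ih =>
    intro i j
    have : (fun x => EE θ x (l :: w) i j)
        = fun x => E θ x l i 0 * EE θ x w 0 j + E θ x l i 1 * EE θ x w 1 j := by
      funext x
      rw [EE_cons, Matrix.mul_apply, Fin.sum_univ_two]
    rw [this]
    exact ((contDiffAt_E θ hx l i 0).mul (ih 0 j)).add ((contDiffAt_E θ hx l i 1).mul (ih 1 j))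

lemma analyticAt_phi (h : Ok θ x) {w : List L} (hw : w ≠ []) : AnalyticAt ℝ (phi θ w) x := by
  obtain ⟨Y, hY, hfix⟩ := exists_fixed h w
  obtain ⟨h1, h2, -⟩ := phi_spec h hw hY hfix
  have hE := contDiffAt_EE θ h.x0.ne' w
  apply ContDiffAt.analyticAt
  unfold phi
  refine ContDiffAt.div (contDiffAt_const.mul (hE 1 0)) ?_ h2.ne'
  exact ((hE 1 1).sub (hE 0 0)).add (ContDiffAt.sqrt ((((hE 1 1).sub (hE 0 0)).pow 2).add
    ((contDiffAt_const.mul (hE 0 1)).mul (hE 1 0))) h1.ne')

end Pool.Agent.Q187.Sec
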