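import Mathlib
import Pool.Agent.Q187.Sec.Fix

set_option autoImplicit false

/-!
# A parameter for which different words of the same length have different dual fixed points
-/

open Filter Topology Set

namespace Pool.Agent.Q187.Sec

/-- periodic continuation of a word -/
def per (w : List L) (m : ℕ) : L := w.getD (m % w.length) L.D

/-- the orbit of a point -/
noncomputable def orb (θ x : ℝ) (w : List L) (Y : ℝ) : ℕ → ℝ
  | 0 => Y
  | m + 1 => dual (E θ x (per w m)) (orb θ x w Y m)

variable {θ x : ℝ}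

lemma orb_mem (h : Ok θ x) (w : List L) {Y : ℝ} (hY : Y ∈ Icc (0 : ℝ) 10) (m : ℕ) :
    orb θ x w Y m ∈ Icc (0 : ℝ) 10 := by
  induction m with
  | zero => exact hY
  | succ m ih => exact dual_mem' h _ ih

lemma orb_take (w : List L) (Y : ℝ) (k : ℕ) (hk : k ≤ w.length) :
    orb θ x w Y k = G θ x (w.take k) Y := by
  induction k with
  | zero => simp [orb, G]
  | succ k ih =>
    have hk' : k < w.length := by omega
    show dual (E θ x (per w k)) (orb θ x w Y k) = _
    rw [ih hk'.le]
    have h1 : w.take (k + 1) = w.take k ++ [w[k]] := by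
      rw [List.take_append_getElem]
    have h2 : per w k = w[k] := by
      unfold per
      rw [Nat.mod_eq_of_lt hk', List.getD_eq_getElem _ _ hk']
    rw [h1, h2]
    unfold G
    rw [List.foldl_append]
    rfl

lemma orb_spec (h : Ok θ x) (w : List L) {Y : ℝ} (hY : Y ∈ Icc (0 : ℝ) 10)
    (hfix : G θ x w Y = Y) : Orb θ x w.length (per w) (orb θ x w Y) := by
  have hper : ∀ m, per w (m + w.length) = per w m := by
    intro m
    unfold per
    rw [Nat.add_mod_right]
  refine ⟨orb_mem h w hY, fun m => rfl, hper, fun m => ?_⟩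
  induction m with
  | zero =>
    rw [Nat.zero_add, orb_take w Y _ (le_refl _), List.take_length, hfix]
    rfl
  | succ m ih =>
    rw [show m + 1 + w.length = m + w.length + 1 by omega]
    show dual (E θ x (per w (m + w.length))) (orb θ x w Y (m + w.length)) = _
    rw [ih, hper]
    rfl

lemma Orb.py_mul {n : ℕ} {w : ℕ → L} {y : ℕ → ℝ} (ho : Orb θ x n w y) (k : ℕ) : y (k * n) = y 0 := by
  induction k with
  | zero => simp
  | succ k ih => rw [Nat.succ_mul, ho.py, ih]

/-- different words have different fixed points for small parameters -/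
lemma coincide (n : ℕ) (hn : 1 ≤ n) : ∃ x₀ : ℝ, 0 < x₀ ∧ ∀ θ x : ℝ, Ok θ x → x < x₀ →
    ∀ w w' : List L, w.length = n → w'.length = n → ∀ Y ∈ Icc (0 : ℝ) 10,
      G θ x w Y = Y → G θ x w' Y = Y → w = w' := by
  obtain ⟨x₀, hx₀, hsep⟩ := sep n hn
  refine ⟨x₀, hx₀, fun θ x h hx w w' hw hw' Y hY hf hf' => ?_⟩
  have ho := orb_spec h w hY hf
  have ho' := orb_spec h w' hY hf'
  rw [hw] at ho
  rw [hw'] at ho'
  have key : ∀ d ≤ n, orb θ x w Y (4 * n - d) = orb θ x w' Y (4 * n - d) ∧
      ∀ j < d, per w (4 * n - 1 - j) = per w' (4 * n - 1 - j) := by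
    intro d
    induction d with
    | zero =>
      intro _
      refine ⟨?_, fun j hj => by omega⟩
      rw [Nat.sub_zero, ho.py_mul, ho'.py_mul]
      rfl
    | succ d ih =>
      intro hd
      obtain ⟨h1, h2⟩ := ih (by omega)
      obtain ⟨T, hT⟩ : ∃ T, 4 * n - d = T + 1 := ⟨4 * n - d - 1, by omega⟩
      rw [hT] at h1
      have h3 := hsep θ x h hx _ _ _ _ ho ho' T (by omega) h1
      have h4 : 4 * n - (d + 1) = T := by omega
      have h5 : 4 * n - 1 - d = T := by omega
      refine ⟨?_, fun j hj => ?_⟩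
      · rw [h4]
        rw [ho.step, ho'.step, h3] at h1
        exact dual_inj h _ (ho.mem _) (ho'.mem _) h1
      · rcases Nat.lt_or_ge j d with hj' | hj'
        · exact h2 j hj'
        · rw [show j = d by omega, h5, h3]
  obtain ⟨-, hkey⟩ := key n le_rfl
  apply List.ext_getElem (by rw [hw, hw'])
  intro k hk hk'
  have h1 := hkey (n - 1 - k) (by omega)
  rw [show 4 * n - 1 - (n - 1 - k) = k + n + n + n by omega, ho.pw, ho.pw, ho.pw, ho'.pw, ho'.pw,
    ho'.pw] at h1
  unfold per at h1
  rw [Nat.mod_eq_of_lt hk, Nat.mod_eq_of_lt hk', List.getD_eq_getElem _ _ hk,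
    List.getD_eq_getElem _ _ hk'] at h1
  exact h1

instance : Countable L := by
  have : Function.Injective (fun l : L => match l with
    | L.D => (0 : ℕ)
    | L.K i => 1 + i.toNat
    | L.C i => 3 + i.toNat) := by
    intro a b hab
    rcases a with _ | i | i <;> rcases b with _ | j | j <;> simp only at hab
    · rfl
    · omega
    · omega
    · omega
    · congr 1
      rcases i with _ | _ <;> rcases j with _ | _ <;> simp at hab ⊢
    · rcases i with _ | _ <;> rcases j with _ | _ <;> simp at hab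
    · omega
    · rcases i with _ | _ <;> rcases j with _ | _ <;> simp at hab
    · congr 1
      rcases i with _ | _ <;> rcases j with _ | _ <;> simp at hab ⊢
  exact this.countable

/-- **A good parameter.** -/
theorem exists_x (θ : ℝ) (h0 : 0 ≤ θ) (h1 : θ ≤ 1 / 1000) : ∃ x, Ok θ x ∧
    ∀ w w' : List L, w ≠ [] → w.length = w'.length → w ≠ w' → ∀ Y ∈ Icc (0 : ℝ) 10,
      G θ x w Y = Y → G θ x w' Y = Y → False := by
  set I := {p : List L × List L // p.1 ≠ [] ∧ p.1.length = p.2.length ∧ p.1 ≠ p.2} with hI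
  have hok : ∀ x ∈ Ioo (0 : ℝ) (1 / 1000), Ok θ x := fun x hx => ⟨h0, h1, hx.1, hx.2.le⟩
  set f : I → ℝ → ℝ := fun p x => phi θ p.1.1 x - phi θ p.1.2 x with hf
  have hne2 : ∀ p : I, p.1.2 ≠ [] := by
    intro p h
    have h2 := p.2.2.1
    rw [h] at h2
    exact p.2.1 (List.length_eq_zero_iff.1 h2)
  have han : ∀ p : I, AnalyticOnNhd ℝ (f p) (Ioo 0 (1 / 1000)) := by
    intro p x hx
    exact (analyticAt_phi (hok x hx) p.2.1).sub (analyticAt_phi (hok x hx) (hne2 p))
  -- not identically zero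
  have hnz : ∀ p : I, ¬ EqOn (f p) 0 (Ioo 0 (1 / 1000)) := by
    intro p hp
    obtain ⟨x₀, hx₀, hco⟩ := coincide p.1.1.length (List.length_pos_iff.2 p.2.1)
    set x := min x₀ (1 / 1000) / 2 with hx
    have hm : 0 < min x₀ (1 / 1000) := lt_min hx₀ (by norm_num)
    have hx1 : x < x₀ := by
      have := min_le_left x₀ (1 / 1000)
      linarith
    have hx2 : x ∈ Ioo (0 : ℝ) (1 / 1000) := by
      have := min_le_right x₀ (1 / 1000)
      constructor <;> linarith
    have h := hok x hx2
    obtain ⟨Y, hY, hfix⟩ := exists_fixed h p.1.1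
    obtain ⟨Y', hY', hfix'⟩ := exists_fixed h p.1.2
    have e1 := (phi_spec h p.2.1 hY hfix).2.2
    have e2 := (phi_spec h (hne2 p) hY' hfix').2.2
    have e3 := hp hx2
    simp only [hf, Pi.zero_apply] at e3
    rw [e1, e2, sub_eq_zero] at e3
    rw [← e3] at hfix'
    exact p.2.2.2 (hco θ x h hx1 _ _ rfl p.2.2.1.symm Y hY hfix hfix')
  set O : I → Set ℝ := fun p => (Ioo 0 (1 / 1000) ∩ f p ⁻¹' {0}ᶜ) ∪ (Icc 0 (1 / 1000))ᶜ with hO
  have hopen : ∀ p, IsOpen (O p) := by
    intro p
    apply IsOpen.union _ isClosed_Icc.isOpen_compl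
    exact (han p).continuousOn.isOpen_inter_preimage isOpen_Ioo isClosed_singleton.isOpen_compl
  have hdense : ∀ p, Dense (O p) := by
    intro p
    rw [dense_iff_inter_open]
    intro V hV hVne
    by_contra hcon
    rw [not_nonempty_iff_eq_empty] at hcon
    have h2 : V ⊆ Icc 0 (1 / 1000) := by
      intro z hz
      by_contra h
      have : z ∈ V ∩ O p := ⟨hz, Or.inr h⟩
      rw [hcon] at this
      exact this
    have h3 : V ⊆ Ioo 0 (1 / 1000) := by
      rw [← interior_Icc]
      exact interior_maximal h2 hV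
    obtain ⟨z, hz⟩ := hVne
    apply hnz p
    apply (han p).eqOn_zero_of_preconnected_of_eventuallyEq_zero isPreconnected_Ioo (h3 hz)
    filter_upwards [hV.mem_nhds hz] with u hu
    by_contra h
    have : u ∈ V ∩ O p := ⟨hu, Or.inl ⟨h3 hu, h⟩⟩
    rw [hcon] at this
    exact this
  obtain ⟨x, hx, hxO⟩ := (dense_iInter_of_isOpen hopen hdense).inter_open_nonempty
    (Ioo 0 (1 / 1000)) isOpen_Ioo ⟨1 / 2000, by constructor <;> norm_num⟩
  have h := hok x hx
  refine ⟨x, h, fun w w' hw hlen hne Y hY hfix hfix' => ?_⟩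
  have hp := mem_iInter.1 hxO ⟨(w, w'), hw, hlen, hne⟩
  rcases hp with ⟨-, hp⟩ | hp
  · apply hp
    have hw' : w' ≠ [] := hne2 ⟨(w, w'), hw, hlen, hne⟩
    show phi θ w x - phi θ w' x = 0
    rw [(phi_spec h hw hY hfix).2.2, (phi_spec h hw' hY hfix').2.2, sub_self]
  · exact hp (Ioo_subset_Icc_self hx)

end Pool.Agent.Q187.Sec
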