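import Mathlib
import Pool.Agent.Q187.Sec.Gen

set_option autoImplicit false

/-!
# The primal system
-/

open Filter Topology Set

namespace Pool.Agent.Q187.Sec

/-- hypotheses on the parameters of the primal system -/
structure Ok2 (θ x r : ℝ) : Prop extends Ok θ x where
  r0 : 0 < r
  r1 : r ≤ 1 / 2000
  hr : 10 * θ ≤ r / 5

variable {θ x r : ℝ}

/-- bounds for the entries of the letters -/
lemma entries (h : Ok2 θ x r) (l : L) : |E θ x l 0 0| ≤ 1 / 10 ∧ |E θ x l 0 1| ≤ r / 5 ∧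
    |E θ x l 1 0| ≤ 5 ∧ 99 / 100 ≤ E θ x l 1 1 := by
  have h' : Ok θ x := h.toOk
  have hr0 := h.r0
  rcases l with _ | i | i
  · refine ⟨?_, ?_, ?_, ?_⟩
    · show |x| ≤ _
      rw [abs_of_pos h.x0]; linarith [h.x1]
    · show |(0 : ℝ)| ≤ _
      rw [abs_zero]; positivity
    · show |(0 : ℝ)| ≤ _
      rw [abs_zero]; norm_num
    · show _ ≤ (1 : ℝ)
      norm_num
  · obtain ⟨h1, h2⟩ := bb_mem i
    obtain ⟨h3, h4⟩ := tt_mem h' i
    have h5 : tt θ i ≤ θ := by
      cases i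
      · exact le_refl _
      · exact h.h0
    refine ⟨?_, ?_, ?_, ?_⟩
    · show |(1 / 10 : ℝ)| ≤ _
      rw [abs_of_pos (by norm_num)]
    · show |-tt θ i| ≤ _
      rw [abs_neg, abs_of_nonneg h3]
      linarith [h.hr, h.h0]
    · show |-bb i| ≤ _
      rw [abs_neg, abs_of_nonneg (by linarith)]
      exact h2
    · show _ ≤ (1 : ℝ)
      norm_num
  · obtain ⟨h1, h2⟩ := bb_mem i
    obtain ⟨h3, h4⟩ := tt_mem h' i
    obtain ⟨h6, h7⟩ := tb_mem h' i
    obtain ⟨h8, h9⟩ := mu_mem h' i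
    have h5 : tt θ i ≤ θ := by
      cases i
      · exact le_refl _
      · exact h.h0
    refine ⟨?_, ?_, ?_, ?_⟩
    · show |mu x i - 10 * tt θ i * bb i| ≤ _
      rw [abs_le]
      constructor <;> linarith
    · show |10 * tt θ i * (1 - mu x i)| ≤ _
      rw [abs_of_nonneg (mul_nonneg (by linarith) (by linarith))]
      have : tt θ i * (1 - mu x i) ≤ θ * 1 := mul_le_mul h5 (by linarith) (by linarith) h.h0
      linarith [h.hr]
    · show |-(bb i * (1 - mu x i))| ≤ _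
      rw [abs_neg, abs_of_nonneg (mul_nonneg (by linarith) (by linarith))]
      have : bb i * (1 - mu x i) ≤ 5 * 1 := mul_le_mul h2 (by linarith) (by linarith) (by norm_num)
      linarith
    · show _ ≤ 1 - 10 * mu x i * tt θ i * bb i
      have : mu x i * (tt θ i * bb i) ≤ 1 / 1000 * (1 / 500) := mul_le_mul h9 h7 h6 (by norm_num)
      linarith

lemma pd_ge (h : Ok2 θ x r) (l : L) {u : ℝ} (hu : |u| ≤ r) : 49 / 50 ≤ pd (E θ x l) u := by
  obtain ⟨-, -, h3, h4⟩ := entries h l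
  have h5 : |E θ x l 1 0 * u| ≤ 5 * r := by
    rw [abs_mul]
    exact mul_le_mul h3 hu (abs_nonneg _) (by norm_num)
  have h6 := (abs_le.1 h5).1
  show _ ≤ E θ x l 1 0 * u + E θ x l 1 1
  linarith [h.r1]

lemma prim_mem (h : Ok2 θ x r) (l : L) {u : ℝ} (hu : |u| ≤ r) : |prim (E θ x l) u| ≤ r := by
  obtain ⟨h1, h2, -, -⟩ := entries h l
  have h5 := pd_ge h l hu
  unfold prim
  rw [abs_div, abs_of_pos (by linarith : 0 < pd (E θ x l) u), div_le_iff₀ (by linarith)]
  have h6 : |pn (E θ x l) u| ≤ 1 / 10 * r + r / 5 := by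
    show |E θ x l 0 0 * u + E θ x l 0 1| ≤ _
    refine (abs_add_le _ _).trans (add_le_add ?_ h2)
    rw [abs_mul]
    exact mul_le_mul h1 hu (abs_nonneg _) (by norm_num)
  have := h.r0
  nlinarith

lemma prim_contr (h : Ok2 θ x r) (l : L) {u v : ℝ} (hu : |u| ≤ r) (hv : |v| ≤ r) :
    |prim (E θ x l) u - prim (E θ x l) v| ≤ 1 / 5 * |u - v| := by
  have h1 := pd_ge h l hu
  have h2 := pd_ge h l hv
  have h3 := prim_sub (M := E θ x l) (z := u) (z' := v) (by linarith) (by linarith)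
  obtain ⟨h4, h5⟩ := det_mem h.toOk l
  have hpos : 0 < pd (E θ x l) u * pd (E θ x l) v := by
    apply mul_pos <;> linarith
  rw [h3, abs_div, abs_mul, abs_of_pos h4, abs_of_pos hpos, div_le_iff₀ hpos]
  have h6 : 1 / 2 ≤ pd (E θ x l) u * pd (E θ x l) v := by nlinarith
  have h7 := abs_nonneg (u - v)
  nlinarith

/-- the action of a word -/
noncomputable def F (θ x : ℝ) (w : List L) (u : ℝ) : ℝ := w.foldr (fun l u => prim (E θ x l) u) u

lemma F_cons (l : L) (w : List L) (u : ℝ) : F θ x (l :: w) u = prim (E θ x l) (F θ x w u) := rfl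

lemma F_append (w w' : List L) (u : ℝ) : F θ x (w ++ w') u = F θ x w (F θ x w' u) := by
  unfold F
  rw [List.foldr_append]

lemma F_mem (h : Ok2 θ x r) (w : List L) {u : ℝ} (hu : |u| ≤ r) : |F θ x w u| ≤ r := by
  induction w with
  | nil => exact hu
  | cons l w ih => rw [F_cons]; exact prim_mem h l ih

lemma F_contr (h : Ok2 θ x r) (w : List L) {u v : ℝ} (hu : |u| ≤ r) (hv : |v| ≤ r) :
    |F θ x w u - F θ x w v| ≤ (1 / 5) ^ w.length * |u - v| := by
  induction w with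
  | nil => simp [F]
  | cons l w ih =>
    rw [F_cons, F_cons, List.length_cons, pow_succ', mul_assoc]
    refine (prim_contr h l (F_mem h w hu) (F_mem h w hv)).trans ?_
    exact mul_le_mul_of_nonneg_left ih (by norm_num)

lemma pd_EE (h : Ok2 θ x r) (w : List L) {u : ℝ} (hu : |u| ≤ r) :
    0 < pd (EE θ x w) u ∧ prim (EE θ x w) u = F θ x w u := by
  induction w with
  | nil => simp [EE, pd, prim, pn, F]
  | cons l w ih =>
    obtain ⟨h1, h2⟩ := ih
    have h3 := pd_ge h l (F_mem h w hu)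
    rw [EE_cons, pd_mul h1.ne', prim_mul h1.ne', h2, F_cons]
    exact ⟨mul_pos h1 (by linarith), rfl⟩

/-- fixed points -/
lemma exists_prim_fixed (h : Ok2 θ x r) (w : List L) : ∃ p, |p| ≤ r ∧ F θ x w p = p := by
  have hcont : ContinuousOn (F θ x w) (Icc (-r) r) := by
    have : LipschitzOnWith 1 (F θ x w) (Icc (-r) r) := by
      apply LipschitzOnWith.of_dist_le_mul
      intro z hz z' hz'
      rw [Real.dist_eq, Real.dist_eq, NNReal.coe_one, one_mul]
      refine (F_contr h w (abs_le.2 hz) (abs_le.2 hz')).trans ?_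
      have : ((1 : ℝ) / 5) ^ w.length ≤ 1 := pow_le_one₀ (by norm_num) (by norm_num)
      nlinarith [abs_nonneg (z - z')]
    exact this.continuousOn
  obtain ⟨p, hp, hfix⟩ := exists_mem_Icc_isFixedPt_of_mapsTo hcont (by linarith [h.r0])
    (fun z hz => abs_le.1 (F_mem h w (abs_le.2 hz)))
  exact ⟨p, abs_le.2 hp, hfix⟩

/-- the linearizing coordinate -/
noncomputable def psi (p Y u : ℝ) : ℝ := (u - p) / (1 - Y * u)

lemma den_pos (h : Ok2 θ x r) {Y u : ℝ} (hY : Y ∈ Icc (0 : ℝ) 10) (hu : |u| ≤ r) :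
    99 / 100 ≤ 1 - Y * u := by
  have h1 : |Y * u| ≤ 10 * (1 / 2000) := by
    rw [abs_mul, abs_of_nonneg hY.1]
    exact mul_le_mul hY.2 (hu.trans h.r1) (abs_nonneg _) (by norm_num)
  linarith [(abs_le.1 h1).2]

lemma psi_F (h : Ok2 θ x r) (w : List L) {Y p : ℝ} (hY : Y ∈ Icc (0 : ℝ) 10)
    (hfixY : G θ x w Y = Y) (hp : |p| ≤ r) (hfixp : F θ x w p = p) :
    ∃ κ : ℝ, κ ≠ 0 ∧ ∀ u, |u| ≤ r → psi p Y (F θ x w u) = κ * psi p Y u := by
  obtain ⟨hpd, hpp⟩ := pd_EE h w hp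
  rw [hfixp] at hpp
  obtain ⟨hdn, hdY⟩ := dn_EE h.toOk w hY
  rw [hfixY] at hdY
  have hdn0 : 0 < dn (EE θ x w) Y := lt_of_lt_of_le (by positivity) hdn
  have hdet := (det_EE h.toOk w).1
  refine ⟨(EE θ x w).det / (pd (EE θ x w) p * dn (EE θ x w) Y), by positivity, fun u hu => ?_⟩
  obtain ⟨hpdu, hpu⟩ := pd_EE h w hu
  have h1 := prim_sub (M := EE θ x w) hpdu.ne' hpd.ne'
  rw [hpu, hpp] at h1
  have hnm : nm (EE θ x w) Y = Y * dn (EE θ x w) Y := by
    have : nm (EE θ x w) Y / dn (EE θ x w) Y = Y := hdY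
    rwa [div_eq_iff hdn0.ne'] at this
  have h2 : (1 - Y * F θ x w u) * pd (EE θ x w) u = dn (EE θ x w) Y * (1 - Y * u) := by
    rw [← hpu]
    have h3 : prim (EE θ x w) u * pd (EE θ x w) u = pn (EE θ x w) u :=
      div_mul_cancel₀ _ hpdu.ne'
    have h4 : (1 - Y * prim (EE θ x w) u) * pd (EE θ x w) u
        = pd (EE θ x w) u - Y * pn (EE θ x w) u := by
      rw [← h3]; ring
    rw [h4]
    unfold nm at hnm
    unfold pd pn dn at *
    linear_combination (-u) * hnm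
  have h5 : 0 < 1 - Y * u := by linarith [den_pos h hY hu]
  have h6 : 0 < 1 - Y * F θ x w u := by linarith [den_pos h hY (F_mem h w hu)]
  unfold psi
  rw [h1]
  have h7 : 1 - Y * F θ x w u = dn (EE θ x w) Y * (1 - Y * u) / pd (EE θ x w) u := by
    rw [eq_div_iff hpdu.ne', h2]
  rw [h7]
  field_simp

end Pool.Agent.Q187.Sec
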