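import Mathlib
import Pool.Agent.Q187.Sec.Prim

set_option autoImplicit false

/-!
# Linearizations
-/

open Filter Topology Set Polynomial

namespace Pool.Agent.Q187.Sec

lemma ratio_one {r L : ℝ} (h : Tendsto (fun n : ℕ => r ^ n) atTop (𝓝 L)) (hL : L ≠ 0) : r = 1 := by
  have h1 : Tendsto (fun n : ℕ => r ^ (n + 1)) atTop (𝓝 L) := (tendsto_add_atTop_iff_nat 1).2 h
  have h2 : Tendsto (fun n : ℕ => r * r ^ n) atTop (𝓝 (r * L)) := h.const_mul r
  have h3 : (fun n : ℕ => r ^ (n + 1)) = fun n : ℕ => r * r ^ n := by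
    funext n; rw [pow_succ, mul_comm]
  rw [h3] at h1
  have h4 := tendsto_nhds_unique h1 h2
  have h5 : (r - 1) * L = 0 := by linarith
  rcases mul_eq_zero.1 h5 with h6 | h6
  · linarith
  · exact absurd h6 hL

/-- Every injective analytic linearization is a power of a given one. -/
lemma linearize {I : Set ℝ} {φ Ψ m g : ℝ → ℝ} {P κ lam τ : ℝ} (hφ : MapsTo φ I I) (hP : P ∈ I)
    (hφP : φ P = P) (hκ : κ ≠ 0) (hΨ : ∀ t ∈ I, Ψ (φ t) = κ * Ψ t)
    (hm : ContinuousAt m P) (hm0 : ∀ t ∈ I, m t ≠ 0) (hΨm : ∀ t ∈ I, t - P = Ψ t * m t)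
    (hlim : ∀ t ∈ I, Tendsto (fun n => φ^[n] t) atTop (𝓝 P)) (hI : ∃ t ∈ I, t ≠ P)
    (hg : AnalyticAt ℝ g P) (hinj : InjOn g I) (heq : ∀ t ∈ I, g (φ t) = lam * g t + τ) :
    ∃ (C : ℝ) (k : ℕ), C ≠ 0 ∧ 1 ≤ k ∧ ∀ t ∈ I, g t = g P + C * Ψ t ^ k := by
  have hτ : g P = lam * g P + τ := by
    have := heq P hP
    rwa [hφP] at this
  have hmem : ∀ n : ℕ, ∀ t ∈ I, φ^[n] t ∈ I := fun n t ht => (hφ.iterate n) ht
  have hgn : ∀ n : ℕ, ∀ t ∈ I, g (φ^[n] t) - g P = lam ^ n * (g t - g P) := by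
    intro n t ht
    induction n with
    | zero => simp
    | succ n ih =>
      rw [Function.iterate_succ', Function.comp_apply, heq _ (hmem n t ht), pow_succ', mul_assoc,
        ← ih]
      linear_combination -hτ
  have hΨn : ∀ n : ℕ, ∀ t ∈ I, Ψ (φ^[n] t) = κ ^ n * Ψ t := by
    intro n t ht
    induction n with
    | zero => simp
    | succ n ih =>
      rw [Function.iterate_succ', Function.comp_apply, hΨ _ (hmem n t ht), ih]
      ring
  obtain ⟨t₁, ht₁, hne⟩ := hI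
  have hΨ1 : Ψ t₁ ≠ 0 := by
    intro h0
    have := hΨm t₁ ht₁
    rw [h0, zero_mul, sub_eq_zero] at this
    exact hne this
  have han : AnalyticAt ℝ (fun z => g z - g P) P := hg.sub analyticAt_const
  have hnz : ¬ ∀ᶠ z in 𝓝 P, g z - g P = 0 := by
    intro hev
    obtain ⟨n, hn⟩ := ((hlim t₁ ht₁).eventually hev).exists
    have h1 : φ^[n] t₁ = P := hinj (hmem n t₁ ht₁) hP (by linarith)
    have h2 := hΨm _ (hmem n t₁ ht₁)
    rw [hΨn n t₁ ht₁, h1, sub_self] at h2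
    have h3 := mul_ne_zero (mul_ne_zero (pow_ne_zero n hκ) hΨ1) (hm0 P hP)
    exact h3 h2.symm
  obtain ⟨k, q, hq, hqP, hkq⟩ := han.exists_eventuallyEq_pow_smul_nonzero_iff.2 hnz
  have hk : 1 ≤ k := by
    by_contra h
    have hk0 : k = 0 := by omega
    have := hkq.self_of_nhds
    rw [hk0, pow_zero, one_smul, sub_self] at this
    exact hqP this.symm
  have hlim2 : ∀ t ∈ I, Tendsto (fun n : ℕ => (lam / κ ^ k) ^ n * (g t - g P)) atTop
      (𝓝 ((Ψ t * m P) ^ k * q P)) := by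
    intro t ht
    have h1 : Tendsto (fun n : ℕ => (Ψ t * m (φ^[n] t)) ^ k * q (φ^[n] t)) atTop
        (𝓝 ((Ψ t * m P) ^ k * q P)) :=
      (((hm.tendsto.comp (hlim t ht)).const_mul _).pow k).mul
        (hq.continuousAt.tendsto.comp (hlim t ht))
    refine h1.congr' ?_
    filter_upwards [(hlim t ht).eventually hkq] with n hn
    rw [hgn n t ht, hΨm _ (hmem n t ht), hΨn n t ht, smul_eq_mul] at hn
    have hκn : κ ^ n ≠ 0 := pow_ne_zero n hκ
    have hκk : (κ ^ k) ^ n ≠ 0 := pow_ne_zero n (pow_ne_zero k hκ)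
    have e : (κ ^ n * Ψ t * m (φ^[n] t)) ^ k = (κ ^ k) ^ n * (Ψ t * m (φ^[n] t)) ^ k := by
      rw [mul_assoc, mul_pow, ← pow_mul, ← pow_mul, mul_comm n k]
    rw [div_pow, div_mul_eq_mul_div, hn, eq_div_iff hκk, e]
    ring
  have hC : m P ^ k * q P ≠ 0 := mul_ne_zero (pow_ne_zero _ (hm0 P hP)) hqP
  have hone : lam / κ ^ k = 1 := by
    have hg1 : g t₁ - g P ≠ 0 := by
      intro h0
      exact hne (hinj ht₁ hP (by linarith))
    have h1 := (hlim2 t₁ ht₁).div_const (g t₁ - g P)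
    have h2 : (fun n : ℕ => (lam / κ ^ k) ^ n * (g t₁ - g P) / (g t₁ - g P))
        = fun n : ℕ => (lam / κ ^ k) ^ n := by
      funext n
      rw [mul_div_assoc, div_self hg1, mul_one]
    rw [h2] at h1
    apply ratio_one h1
    apply div_ne_zero _ hg1
    rw [mul_pow, mul_assoc]
    exact mul_ne_zero (pow_ne_zero _ hΨ1) hC
  refine ⟨m P ^ k * q P, k, hC, hk, fun t ht => ?_⟩
  have h1 := hlim2 t ht
  simp only [hone, one_pow, one_mul] at h1
  have h2 := tendsto_nhds_unique h1 tendsto_const_nhds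
  rw [mul_pow] at h2
  linarith

/-- The pole is determined by the linearization. -/
lemma same_pole {p1 p2 Y1 Y2 C1 C2 D : ℝ} {k1 k2 : ℕ} {S : Set ℝ} (hS : S.Infinite)
    (hk1 : 1 ≤ k1) (hk2 : 1 ≤ k2) (hC1 : C1 ≠ 0) (hC2 : C2 ≠ 0) (h1 : ∀ u ∈ S, 1 - Y1 * u ≠ 0)
    (h2 : ∀ u ∈ S, 1 - Y2 * u ≠ 0) (hp1 : 1 - Y1 * p1 ≠ 0) (hp2 : 1 - Y2 * p2 ≠ 0)
    (heq : ∀ u ∈ S, C1 * psi p1 Y1 u ^ k1 = D + C2 * psi p2 Y2 u ^ k2) : Y1 = Y2 := by
  set Q : ℝ[X] := Polynomial.C C1 * (X - Polynomial.C p1) ^ k1 * (1 - Polynomial.C Y2 * X) ^ k2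
    - Polynomial.C C2 * (X - Polynomial.C p2) ^ k2 * (1 - Polynomial.C Y1 * X) ^ k1
    - Polynomial.C D * (1 - Polynomial.C Y1 * X) ^ k1 * (1 - Polynomial.C Y2 * X) ^ k2 with hQ
  have heval : ∀ u, Q.eval u = C1 * (u - p1) ^ k1 * (1 - Y2 * u) ^ k2
      - C2 * (u - p2) ^ k2 * (1 - Y1 * u) ^ k1 - D * (1 - Y1 * u) ^ k1 * (1 - Y2 * u) ^ k2 := by
    intro u
    simp [hQ]
  have hroot : S ⊆ {u | Q.IsRoot u} := by
    intro u hu
    have e := heq u hu
    have e1 := pow_ne_zero k1 (h1 u hu)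
    have e2 := pow_ne_zero k2 (h2 u hu)
    show Q.eval u = 0
    rw [heval]
    unfold psi at e
    rw [div_pow, div_pow, mul_div_assoc', mul_div_assoc', div_eq_iff e1] at e
    have e4 : C2 * (u - p2) ^ k2 / (1 - Y2 * u) ^ k2 * (1 - Y2 * u) ^ k2 = C2 * (u - p2) ^ k2 :=
      div_mul_cancel₀ _ e2
    linear_combination (1 - Y2 * u) ^ k2 * e + (1 - Y1 * u) ^ k1 * e4
  have hQ0 : Q = 0 := Polynomial.eq_zero_of_infinite_isRoot Q (hS.mono hroot)
  have hall : ∀ u, C1 * (u - p1) ^ k1 * (1 - Y2 * u) ^ k2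
      - C2 * (u - p2) ^ k2 * (1 - Y1 * u) ^ k1 - D * (1 - Y1 * u) ^ k1 * (1 - Y2 * u) ^ k2 = 0 := by
    intro u
    rw [← heval, hQ0, Polynomial.eval_zero]
  by_contra hne
  by_cases hY1 : Y1 = 0
  · have hY2 : Y2 ≠ 0 := by
      rintro rfl
      exact hne hY1
    have e := hall (1 / Y2)
    rw [mul_one_div_cancel hY2, sub_self, zero_pow (by omega), mul_zero, mul_zero, sub_zero,
      zero_sub, neg_eq_zero, mul_eq_zero, mul_eq_zero] at e
    rcases e with (e | e) | e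
    · exact hC2 e
    · have e' := pow_eq_zero_iff (n := k2) (by omega) |>.1 e
      apply hp2
      have : p2 = 1 / Y2 := by linarith
      rw [this, mul_one_div_cancel hY2, sub_self]
    · have e' := pow_eq_zero_iff (n := k1) (by omega) |>.1 e
      rw [hY1, zero_mul, sub_zero] at e'
      exact one_ne_zero e'
  · have e := hall (1 / Y1)
    rw [mul_one_div_cancel hY1, sub_self, zero_pow (by omega), mul_zero, mul_zero, zero_mul,
      sub_zero, sub_zero, mul_eq_zero, mul_eq_zero] at e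
    rcases e with (e | e) | e
    · exact hC1 e
    · have e' := pow_eq_zero_iff (n := k1) (by omega) |>.1 e
      apply hp1
      have : p1 = 1 / Y1 := by linarith
      rw [this, mul_one_div_cancel hY1, sub_self]
    · have e' := pow_eq_zero_iff (n := k2) (by omega) |>.1 e
      apply hne
      field_simp at e'
      linarith

end Pool.Agent.Q187.Sec
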