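import Mathlib
import Pool.Agent.Q187.Sec.Lin

set_option autoImplicit false

/-!
# The system on the unit interval
-/

open Filter Topology Set

namespace Pool.Agent.Q187.Sec

/-- the action of a word on the unit interval -/
noncomputable def fT (θ x r : ℝ) (w : List L) (t : ℝ) : ℝ :=
  1 / 2 + F θ x w (2 * r * (t - 1 / 2)) / (2 * r)

/-- the property of a good parameter -/
def Good (θ x : ℝ) : Prop := ∀ w w' : List L, w ≠ [] → w.length = w'.length → w ≠ w' →
  ∀ Y ∈ Icc (0 : ℝ) 10, G θ x w Y = Y → G θ x w' Y = Y → False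

variable {θ x r : ℝ}

lemma cmem (h : Ok2 θ x r) {t : ℝ} (ht : t ∈ Icc (0 : ℝ) 1) : |2 * r * (t - 1 / 2)| ≤ r := by
  have := h.r0
  rw [abs_le]
  constructor <;> nlinarith [ht.1, ht.2]

lemma c_fT (h : Ok2 θ x r) (w : List L) (t : ℝ) :
    2 * r * (fT θ x r w t - 1 / 2) = F θ x w (2 * r * (t - 1 / 2)) := by
  have := h.r0.ne'
  unfold fT
  field_simp
  ring

lemma fT_cons (h : Ok2 θ x r) (l : L) (w : List L) (t : ℝ) :
    fT θ x r (l :: w) t = fT θ x r [l] (fT θ x r w t) := by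
  show 1 / 2 + F θ x (l :: w) (2 * r * (t - 1 / 2)) / (2 * r)
    = 1 / 2 + F θ x [l] (2 * r * (fT θ x r w t - 1 / 2)) / (2 * r)
  rw [c_fT h]
  rfl

lemma fT_mem (h : Ok2 θ x r) (w : List L) {t : ℝ} (ht : t ∈ Icc (0 : ℝ) 1) :
    fT θ x r w t ∈ Icc (0 : ℝ) 1 := by
  have h1 := F_mem h w (cmem h ht)
  have hr := h.r0
  rw [← c_fT h, abs_mul, abs_of_pos (by linarith : 0 < 2 * r)] at h1
  have h2 : |fT θ x r w t - 1 / 2| ≤ 1 / 2 := by
    by_contra hcon
    push Not at hcon
    have : 2 * r * (1 / 2) < 2 * r * |fT θ x r w t - 1 / 2| :=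
      mul_lt_mul_of_pos_left hcon (by linarith)
    linarith
  obtain ⟨h3, h4⟩ := abs_le.1 h2
  constructor <;> linarith

lemma uT (h : Ok2 θ x r) {u : ℝ} (hu : |u| ≤ r) : 1 / 2 + u / (2 * r) ∈ Icc (0 : ℝ) 1 := by
  have hr := h.r0
  obtain ⟨h1, h2⟩ := abs_le.1 hu
  have h3 : u / (2 * r) ≤ 1 / 2 := by rw [div_le_iff₀ (by linarith)]; linarith
  have h4 : -(1 / 2) ≤ u / (2 * r) := by rw [le_div_iff₀ (by linarith)]; linarith
  constructor <;> linarith

lemma c_u (h : Ok2 θ x r) (u : ℝ) : 2 * r * (1 / 2 + u / (2 * r) - 1 / 2) = u := by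
  have := h.r0.ne'
  field_simp
  ring

/-- linearizations of a word -/
lemma lin_word (h : Ok2 θ x r) {w : List L} (hw : w ≠ []) {Y p : ℝ} (hY : Y ∈ Icc (0 : ℝ) 10)
    (hfixY : G θ x w Y = Y) (hp : |p| ≤ r) (hfixp : F θ x w p = p) {g : ℝ → ℝ}
    (hg : AnalyticOnNhd ℝ g (Icc 0 1)) (hinj : InjOn g (Icc 0 1)) {a τ : ℝ}
    (heq : ∀ t ∈ Icc (0 : ℝ) 1, g (fT θ x r w t) = a * g t + τ) :
    ∃ (D C : ℝ) (k : ℕ), C ≠ 0 ∧ 1 ≤ k ∧ ∀ u, |u| ≤ r →
      g (1 / 2 + u / (2 * r)) = D + C * psi p Y u ^ k := by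
  have hr := h.r0
  obtain ⟨κ, hκ, hpsi⟩ := psi_F h w hY hfixY hp hfixp
  have hP := uT h hp
  have hcP := c_u h p
  have hfP : fT θ x r w (1 / 2 + p / (2 * r)) = 1 / 2 + p / (2 * r) := by
    unfold fT
    rw [hcP, hfixp]
  have hlen : 1 ≤ w.length := List.length_pos_iff.2 hw
  have hlim : ∀ t ∈ Icc (0 : ℝ) 1, Tendsto (fun n => (fT θ x r w)^[n] t) atTop
      (𝓝 (1 / 2 + p / (2 * r))) := by
    intro t ht
    have hmt : MapsTo (fT θ x r w) (Icc (0 : ℝ) 1) (Icc 0 1) := fun s hs => fT_mem h w hs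
    have hmem : ∀ n : ℕ, (fT θ x r w)^[n] t ∈ Icc (0 : ℝ) 1 := fun n => (hmt.iterate n) ht
    have hbound : ∀ n : ℕ, |(fT θ x r w)^[n] t - (1 / 2 + p / (2 * r))| ≤ (1 / 5) ^ n * 1 := by
      intro n
      induction n with
      | zero =>
        rw [pow_zero, one_mul, abs_le]
        obtain ⟨h1, h2⟩ := hmem 0
        obtain ⟨h3, h4⟩ := hP
        constructor <;> linarith
      | succ n ih =>
        rw [Function.iterate_succ', Function.comp_apply]
        have h1 := F_contr h w (cmem h (hmem n)) (cmem h hP)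
        rw [← c_fT h, ← c_fT h, hfP] at h1
        have h2 : (1 / 5 : ℝ) ^ w.length ≤ 1 / 5 := by
          calc (1 / 5 : ℝ) ^ w.length ≤ (1 / 5) ^ 1 :=
                pow_le_pow_of_le_one (by norm_num) (by norm_num) hlen
            _ = 1 / 5 := pow_one _
        set s := (fT θ x r w)^[n] t
        have e1 : 2 * r * (fT θ x r w s - 1 / 2) - 2 * r * (1 / 2 + p / (2 * r) - 1 / 2)
            = 2 * r * (fT θ x r w s - (1 / 2 + p / (2 * r))) := by ring
        have e2 : 2 * r * (s - 1 / 2) - 2 * r * (1 / 2 + p / (2 * r) - 1 / 2)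
            = 2 * r * (s - (1 / 2 + p / (2 * r))) := by ring
        rw [e1, e2, abs_mul (2 * r) (fT θ x r w s - (1 / 2 + p / (2 * r))),
          abs_mul (2 * r) (s - (1 / 2 + p / (2 * r))), abs_of_pos (by linarith : 0 < 2 * r)] at h1
        have h3 : 2 * r * |fT θ x r w s - (1 / 2 + p / (2 * r))| ≤
            2 * r * ((1 / 5) ^ w.length * |s - (1 / 2 + p / (2 * r))|) := by
          refine h1.trans (le_of_eq ?_)
          ring
        have h4 := le_of_mul_le_mul_left h3 (by linarith)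
        calc |fT θ x r w s - (1 / 2 + p / (2 * r))|
            ≤ (1 / 5) ^ w.length * |s - (1 / 2 + p / (2 * r))| := h4
          _ ≤ 1 / 5 * ((1 / 5) ^ n * 1) := by gcongr
          _ = (1 / 5) ^ (n + 1) * 1 := by rw [pow_succ]; ring
    rw [tendsto_iff_dist_tendsto_zero]
    refine squeeze_zero (fun n => dist_nonneg) (fun n => ?_)
      ((tendsto_pow_atTop_nhds_zero_of_lt_one (by norm_num : (0 : ℝ) ≤ 1 / 5) (by norm_num)).mul_const 1
        |>.trans (by rw [zero_mul]))
    rw [Real.dist_eq]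
    exact hbound n
  obtain ⟨C, k, hC, hk, hall⟩ := linearize (I := Icc (0 : ℝ) 1) (φ := fT θ x r w)
    (Ψ := fun t => psi p Y (2 * r * (t - 1 / 2))) (m := fun t => (1 - Y * (2 * r * (t - 1 / 2))) / (2 * r))
    (g := g) (P := 1 / 2 + p / (2 * r)) (κ := κ) (lam := a) (τ := τ)
    (fun t ht => fT_mem h w ht) hP hfP hκ
    (fun t ht => by
      show psi p Y (2 * r * (fT θ x r w t - 1 / 2)) = _
      rw [c_fT h]
      exact hpsi _ (cmem h ht))
    (by fun_prop)
    (fun t ht => by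
      have := den_pos h hY (cmem h ht)
      apply div_ne_zero <;> linarith)
    (fun t ht => by
      have h1 : 1 - Y * (2 * r * (t - 1 / 2)) ≠ 0 := by
        have := den_pos h hY (cmem h ht)
        linarith
      show t - (1 / 2 + p / (2 * r)) = (2 * r * (t - 1 / 2) - p) / (1 - Y * (2 * r * (t - 1 / 2)))
        * ((1 - Y * (2 * r * (t - 1 / 2))) / (2 * r))
      rw [div_mul_div_cancel₀ h1]
      field_simp
      ring)
    hlim
    (by
      by_cases h0 : (0 : ℝ) = 1 / 2 + p / (2 * r)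
      · exact ⟨1, ⟨zero_le_one, le_refl _⟩, by rw [← h0]; norm_num⟩
      · exact ⟨0, ⟨le_refl _, zero_le_one⟩, h0⟩)
    (hg _ hP) hinj heq
  refine ⟨g (1 / 2 + p / (2 * r)), C, k, hC, hk, fun u hu => ?_⟩
  have := hall _ (uT h hu)
  simp only [c_u h] at this
  exact this

/-- **No two different words of the same length can be linearized simultaneously.** -/
theorem noSub (h : Ok2 θ x r) (hx : Good θ x) {w w' : List L} (hw : w ≠ [])
    (hlen : w.length = w'.length) (hne : w ≠ w') {g : ℝ → ℝ}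
    (hg : AnalyticOnNhd ℝ g (Icc 0 1)) (hinj : InjOn g (Icc 0 1)) {a τ a' τ' : ℝ}
    (h1 : ∀ t ∈ Icc (0 : ℝ) 1, g (fT θ x r w t) = a * g t + τ)
    (h2 : ∀ t ∈ Icc (0 : ℝ) 1, g (fT θ x r w' t) = a' * g t + τ') : False := by
  have hw' : w' ≠ [] := by
    rintro rfl
    exact hw (List.length_eq_zero_iff.1 hlen)
  obtain ⟨Y, hY, hYf⟩ := exists_fixed h.toOk w
  obtain ⟨Y', hY', hYf'⟩ := exists_fixed h.toOk w'
  obtain ⟨p, hp, hpf⟩ := exists_prim_fixed h w
  obtain ⟨p', hp', hpf'⟩ := exists_prim_fixed h w'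
  obtain ⟨D, C, k, hC, hk, e1⟩ := lin_word h hw hY hYf hp hpf hg hinj h1
  obtain ⟨D', C', k', hC', hk', e2⟩ := lin_word h hw' hY' hYf' hp' hpf' hg hinj h2
  have hYY : Y = Y' := by
    refine same_pole (p1 := p) (p2 := p') (S := Icc (-r) r) (D := D' - D) (Icc_infinite (by linarith [h.r0])) hk hk' hC
      hC' (fun u hu => ?_) (fun u hu => ?_) ?_ ?_ (fun u hu => ?_)
    · linarith [den_pos h hY (abs_le.2 hu)]
    · linarith [den_pos h hY' (abs_le.2 hu)]
    · linarith [den_pos h hY hp]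
    · linarith [den_pos h hY' hp']
    · have := e1 u (abs_le.2 hu)
      rw [e2 u (abs_le.2 hu)] at this
      linarith
  subst hYY
  exact hx w w' hw hlen hne Y hY hYf hYf'

lemma F_inj (h : Ok2 θ x r) (w : List L) {u v : ℝ} (hu : |u| ≤ r) (hv : |v| ≤ r)
    (he : F θ x w u = F θ x w v) : u = v := by
  obtain ⟨h1, h2⟩ := pd_EE h w hu
  obtain ⟨h3, h4⟩ := pd_EE h w hv
  have h5 := prim_sub (M := EE θ x w) h1.ne' h3.ne'
  rw [h2, h4, he, sub_self] at h5
  have h6 := (det_EE h.toOk w).1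
  have h7 : 0 < pd (EE θ x w) u * pd (EE θ x w) v := mul_pos h1 h3
  rcases div_eq_zero_iff.1 h5.symm with h8 | h8
  · rcases mul_eq_zero.1 h8 with h9 | h9 <;> linarith
  · linarith

/-- words of the same length have different actions -/
lemma noOverlap_len (h : Ok2 θ x r) (hx : Good θ x) {w w' : List L} (hw : w ≠ [])
    (hlen : w.length = w'.length) (hne : w ≠ w')
    (heq : ∀ t ∈ Icc (0 : ℝ) 1, fT θ x r w t = fT θ x r w' t) : False := by
  obtain ⟨Y, hY, hYf⟩ := exists_fixed h.toOk w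
  obtain ⟨p, hp, hpf⟩ := exists_prim_fixed h w
  obtain ⟨κ, hκ, hpsi⟩ := psi_F h w hY hYf hp hpf
  have hr := h.r0
  refine noSub h hx hw hlen hne (g := fun t => psi p Y (2 * r * (t - 1 / 2))) ?_ ?_
    (a := κ) (τ := 0) (a' := κ) (τ' := 0) ?_ ?_
  · intro t ht
    have h1 : 1 - Y * (2 * r * (t - 1 / 2)) ≠ 0 := by linarith [den_pos h hY (cmem h ht)]
    unfold psi
    exact AnalyticAt.div (by fun_prop) (by fun_prop) h1
  · intro t ht s hs hts
    have h1 := den_pos h hY (cmem h ht)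
    have h2 := den_pos h hY (cmem h hs)
    have h3 := den_pos h hY hp
    simp only [psi] at hts
    rw [div_eq_div_iff (by linarith) (by linarith)] at hts
    have h4 : (2 * r * (t - s)) * (1 - Y * p) = 0 := by linear_combination hts
    rcases mul_eq_zero.1 h4 with h5 | h5
    · rcases mul_eq_zero.1 h5 with h6 | h6 <;> linarith
    · linarith
  · intro t ht
    show psi p Y (2 * r * (fT θ x r w t - 1 / 2)) = _
    rw [c_fT h, hpsi _ (cmem h ht), add_zero]
  · intro t ht
    show psi p Y (2 * r * (fT θ x r w' t - 1 / 2)) = _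
    rw [← heq t ht, c_fT h, hpsi _ (cmem h ht), add_zero]

lemma F_ne_id (h : Ok2 θ x r) {w : List L} (hw : w ≠ []) : ¬ ∀ u, |u| ≤ r → F θ x w u = u := by
  intro hid
  have hr := h.r0
  have h1 : |r| ≤ r := by rw [abs_of_pos hr]
  have h2 : |(-r)| ≤ r := by rw [abs_neg, abs_of_pos hr]
  have h3 := F_contr h w h1 h2
  rw [hid _ h1, hid _ h2] at h3
  have h4 : (1 / 5 : ℝ) ^ w.length ≤ 1 / 5 := by
    calc (1 / 5 : ℝ) ^ w.length ≤ (1 / 5) ^ 1 :=
          pow_le_pow_of_le_one (by norm_num) (by norm_num) (List.length_pos_iff.2 hw)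
      _ = 1 / 5 := pow_one _
  have h5 : 0 < |r - -r| := by
    rw [abs_pos]; linarith
  nlinarith

/-- **No exact overlaps.** -/
theorem noOverlap (h : Ok2 θ x r) (hx : Good θ x) {w w' : List L} (hne : w ≠ w')
    (heq : ∀ t ∈ Icc (0 : ℝ) 1, fT θ x r w t = fT θ x r w' t) : False := by
  have hF : ∀ u, |u| ≤ r → F θ x w u = F θ x w' u := by
    intro u hu
    have h1 := heq _ (uT h hu)
    have h2 := c_fT h w (1 / 2 + u / (2 * r))
    have h3 := c_fT h w' (1 / 2 + u / (2 * r))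
    rw [c_u h] at h2 h3
    rw [← h2, ← h3, h1]
  by_cases hcomm : w ++ w' = w' ++ w
  · -- one word is a prefix of the other
    have key : ∀ w w' : List L, w ≠ w' → w ++ w' = w' ++ w → w.length ≤ w'.length →
        (∀ u, |u| ≤ r → F θ x w u = F θ x w' u) → False := by
      intro w w' hne hcomm hle hF
      have h1 : w <+: w ++ w' := List.prefix_append _ _
      have h2 : w' <+: w ++ w' := by rw [hcomm]; exact List.prefix_append _ _
      obtain ⟨k, hk⟩ := List.prefix_of_prefix_length_le h1 h2 hle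
      have hk0 : k ≠ [] := by
        rintro rfl
        rw [List.append_nil] at hk
        exact hne hk
      apply F_ne_id h hk0
      intro u hu
      have h3 := hF u hu
      rw [← hk, F_append] at h3
      exact (F_inj h w hu (F_mem h k hu) h3).symm
    rcases le_total w.length w'.length with hle | hle
    · exact key w w' hne hcomm hle hF
    · exact key w' w hne.symm hcomm.symm hle fun u hu => (hF u hu).symm
  · apply noOverlap_len h hx (w := w ++ w') (w' := w' ++ w) _ _ hcomm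
    · intro t ht
      unfold fT
      congr 2
      rw [F_append, F_append, hF _ (cmem h ht)]
      exact hF _ (F_mem h w' (cmem h ht))
    · intro h0
      rw [List.append_eq_nil_iff] at h0
      exact hne (h0.1.trans h0.2.symm)
    · rw [List.length_append, List.length_append, add_comm]

end Pool.Agent.Q187.Sec
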