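import Mathlib
import Pool.Agent.Q187.Sec.RealPart

set_option autoImplicit false

/-!
# Super-exponential condensation, and the extension to a complex neighbourhood
-/

open Filter Topology Set

namespace Pool.Agent.Q187.Sec

variable {θ x r : ℝ}

lemma prim_K_C (h : Ok2 θ x r) (i : Bool) {u : ℝ} (hu : |u| ≤ r) :
    prim (E θ x (L.K i)) (prim (E θ x (L.C i)) u) = mu x i * prim (E θ x (L.K i)) u := by
  have h1 := pd_ge h (L.C i) hu
  have h2 := pd_ge h (L.K i) hu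
  rw [← prim_mul (by linarith)]
  obtain ⟨h3, h4⟩ := tb_mem h.toOk i
  have e1 : pn (E θ x (L.K i) * E θ x (L.C i)) u
      = (1 - 10 * (tt θ i * bb i)) * (mu x i * pn (E θ x (L.K i)) u) := by
    unfold pn
    rw [Matrix.mul_apply, Matrix.mul_apply, Fin.sum_univ_two, Fin.sum_univ_two]
    show ((1 / 10) * (mu x i - 10 * tt θ i * bb i) + -tt θ i * (-(bb i * (1 - mu x i)))) * u
      + ((1 / 10) * (10 * tt θ i * (1 - mu x i)) + -tt θ i * (1 - 10 * mu x i * tt θ i * bb i))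
      = (1 - 10 * (tt θ i * bb i)) * (mu x i * ((1 / 10) * u + -tt θ i))
    ring
  have e2 : pd (E θ x (L.K i) * E θ x (L.C i)) u
      = (1 - 10 * (tt θ i * bb i)) * pd (E θ x (L.K i)) u := by
    unfold pd
    rw [Matrix.mul_apply, Matrix.mul_apply, Fin.sum_univ_two, Fin.sum_univ_two]
    show (-bb i * (mu x i - 10 * tt θ i * bb i) + 1 * (-(bb i * (1 - mu x i)))) * u
      + (-bb i * (10 * tt θ i * (1 - mu x i)) + 1 * (1 - 10 * mu x i * tt θ i * bb i))
      = (1 - 10 * (tt θ i * bb i)) * (-bb i * u + 1)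
    ring
  unfold prim
  rw [e1, e2, mul_div_mul_left _ _ (by linarith), mul_div_assoc]

lemma F_D (h : Ok2 θ x r) (p : ℕ) (w : List L) (u : ℝ) :
    F θ x (List.replicate p L.D ++ w) u = x ^ p * F θ x w u := by
  induction p with
  | zero => simp
  | succ p ih =>
    rw [List.replicate_succ, List.cons_append, F_cons, ih]
    have : ∀ v, prim (E θ x L.D) v = x * v := by
      intro v
      simp [prim, pn, pd, E]
    rw [this]
    ring

lemma F_KC (h : Ok2 θ x r) (i : Bool) (q : ℕ) (w : List L) {u : ℝ} (hu : |u| ≤ r) :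
    F θ x (L.K i :: (List.replicate q (L.C i) ++ w)) u
      = mu x i ^ q * prim (E θ x (L.K i)) (F θ x w u) := by
  induction q with
  | zero => simp [F_cons]
  | succ q ih =>
    rw [F_cons] at ih ⊢
    rw [List.replicate_succ, List.cons_append, F_cons, prim_K_C h i (F_mem h _ hu), ih]
    ring

/-- two words of the same length with a very small difference -/
lemma close_words (h : Ok2 θ x r) (i : Bool) (p q n : ℕ) (hp : 1 ≤ p) (hn : p + q + 2 ≤ n) :
    ∃ w w' : List L, w.length = n ∧ w'.length = n ∧ w ≠ w' ∧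
      ∀ t ∈ Icc (0 : ℝ) 1, |fT θ x r w t - fT θ x r w' t| ≤ |x ^ p - mu x i ^ q| := by
  set s := List.replicate (n - (p + q + 2)) L.D with hs
  set w := List.replicate p L.D ++ (L.K i :: (List.replicate 0 (L.C i) ++
    (L.K i :: (List.replicate q (L.C i) ++ s)))) with hw
  set w' := L.K i :: (List.replicate q (L.C i) ++ (List.replicate p L.D ++ (L.K i :: s))) with hw'
  have hr := h.r0
  refine ⟨w, w', ?_, ?_, ?_, fun t ht => ?_⟩
  · simp [hw, hs]; omega
  · simp [hw', hs]; omega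
  · intro heq
    have h1 : w.head? = some L.D := by
      obtain ⟨p', rfl⟩ : ∃ p', p = p' + 1 := ⟨p - 1, by omega⟩
      simp [hw, List.replicate_succ]
    have h2 : w'.head? = some (L.K i) := by simp [hw']
    rw [heq, h2] at h1
    simp at h1
  · set u := 2 * r * (t - 1 / 2) with hu
    have hur : |u| ≤ r := cmem h ht
    set y := F θ x s u with hy
    have hyr : |y| ≤ r := F_mem h s hur
    have e1 : F θ x w u = x ^ p * prim (E θ x (L.K i)) (mu x i ^ q * prim (E θ x (L.K i)) y) := by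
      rw [hw, F_D h, F_KC h i 0 _ hur, F_KC h i q _ hur, pow_zero, one_mul]
    have e2 : F θ x w' u = mu x i ^ q * prim (E θ x (L.K i)) (x ^ p * prim (E θ x (L.K i)) y) := by
      rw [hw', F_KC h i q _ hur, F_D h, F_cons]
    obtain ⟨hm0, hm1⟩ := mu_mem h.toOk i
    have hk := prim_mem h (L.K i) hyr
    set k := prim (E θ x (L.K i)) y with hkdef
    have hmq : 0 ≤ mu x i ^ q ∧ mu x i ^ q ≤ 1 :=
      ⟨by positivity, pow_le_one₀ hm0.le (by linarith)⟩
    have hxp : 0 ≤ x ^ p ∧ x ^ p ≤ 1 := ⟨by have := h.x0; positivity,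
      pow_le_one₀ h.x0.le (by linarith [h.x1])⟩
    have b1 : |mu x i ^ q * k| ≤ r := by
      rw [abs_mul, abs_of_nonneg hmq.1]
      calc mu x i ^ q * |k| ≤ 1 * |k| := by gcongr; exact hmq.2
        _ ≤ r := by rw [one_mul]; exact hk
    have b2 : |x ^ p * k| ≤ r := by
      rw [abs_mul, abs_of_nonneg hxp.1]
      calc x ^ p * |k| ≤ 1 * |k| := by gcongr; exact hxp.2
        _ ≤ r := by rw [one_mul]; exact hk
    have hmain : |F θ x w u - F θ x w' u| ≤ 2 * r * |x ^ p - mu x i ^ q| := by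
      rw [e1, e2]
      set A := prim (E θ x (L.K i)) (mu x i ^ q * k) with hA
      set B := prim (E θ x (L.K i)) (x ^ p * k) with hB
      have hAr : |A| ≤ r := prim_mem h _ b1
      have hAB : |A - B| ≤ 1 / 5 * |mu x i ^ q * k - x ^ p * k| := prim_contr h _ b1 b2
      have e3 : x ^ p * A - mu x i ^ q * B = (x ^ p - mu x i ^ q) * A + mu x i ^ q * (A - B) := by
        ring
      have e4 : mu x i ^ q * k - x ^ p * k = (mu x i ^ q - x ^ p) * k := by ring
      rw [e4, abs_mul, abs_sub_comm (mu x i ^ q)] at hAB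
      rw [e3]
      refine (abs_add_le _ _).trans ?_
      rw [abs_mul, abs_mul, abs_of_nonneg hmq.1]
      have h5 := abs_nonneg (x ^ p - mu x i ^ q)
      have h6 : |x ^ p - mu x i ^ q| * |A| ≤ |x ^ p - mu x i ^ q| * r := by gcongr
      have h7 : mu x i ^ q * |A - B| ≤ 1 * (1 / 5 * (|x ^ p - mu x i ^ q| * r)) := by
        apply mul_le_mul hmq.2 _ (abs_nonneg _) zero_le_one
        refine hAB.trans ?_
        gcongr
      nlinarith [mul_nonneg h5 hr.le]
    have h8 : fT θ x r w t - fT θ x r w' t = (F θ x w u - F θ x w' u) / (2 * r) := by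
      unfold fT
      rw [← hu]
      ring
    rw [h8, abs_div, abs_of_pos (by linarith : 0 < 2 * r), div_le_iff₀ (by linarith)]
    linarith

lemma exp_lip {a b : ℝ} (ha : a ≤ 0) (hb : b ≤ 0) : |Real.exp a - Real.exp b| ≤ |a - b| := by
  have key : ∀ a b : ℝ, b ≤ 0 → a ≤ b → |Real.exp a - Real.exp b| ≤ |a - b| := by
    intro a b hb hab
    rw [abs_sub_comm, abs_of_nonneg (by linarith [Real.exp_le_exp.2 hab]), abs_sub_comm,
      abs_of_nonneg (by linarith)]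
    have h1 : Real.exp a = Real.exp b * Real.exp (a - b) := by rw [← Real.exp_add]; ring_nf
    have h2 := Real.add_one_le_exp (a - b)
    have h3 : Real.exp b ≤ 1 := Real.exp_le_one_iff.2 hb
    have h4 : Real.exp (a - b) ≤ 1 := Real.exp_le_one_iff.2 (by linarith)
    have h5 := Real.exp_pos b
    rw [h1]
    nlinarith
  rcases le_total a b with h | h
  · exact key a b hb h
  · rw [abs_sub_comm, abs_sub_comm a b]
    exact key b a ha h

/-- **Super-exponential condensation.** -/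
theorem condensation (h : Ok2 θ x r) (c : ℝ) (hc : 0 < c) : ∃ N : ℕ, ∀ n, N ≤ n →
    ∃ w w' : List L, w.length = n ∧ w'.length = n ∧ w ≠ w' ∧ ∃ δ < c ^ n,
      ∀ t ∈ Icc (0 : ℝ) 1, |fT θ x r w t - fT θ x r w' t| ≤ δ := by
  obtain ⟨N, hN⟩ := cover (c / 2) (by positivity)
  set K := |Real.log x| with hK
  obtain ⟨M, hM⟩ := pow_unbounded_of_one_lt K (show (1 : ℝ) < 2 by norm_num)
  refine ⟨max N M, fun n hn => ?_⟩
  obtain ⟨ι, hι, p, q, hp, hq, hpq, hlt⟩ := hN n (le_trans (le_max_left _ _) hn)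
  obtain ⟨i, hi⟩ : ∃ i : Bool, AA i = A ι := by
    interval_cases ι
    · exact ⟨false, rfl⟩
    · exact ⟨true, rfl⟩
  obtain ⟨w, w', hw, hw', hne, hclose⟩ := close_words h i p q n hp hpq
  refine ⟨w, w', hw, hw', hne, |x ^ p - mu x i ^ q|, ?_, hclose⟩
  have hx0 := h.x0
  have hlog : Real.log x ≤ 0 := Real.log_nonpos hx0.le (by linarith [h.x1])
  have e1 : x ^ p = Real.exp (Real.log x * p) := by
    rw [← Real.rpow_natCast, Real.rpow_def_of_pos hx0]
  have e2 : mu x i ^ q = Real.exp (Real.log x * (A ι * q)) := by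
    unfold mu
    rw [← Real.rpow_natCast, ← Real.rpow_mul hx0.le, Real.rpow_def_of_pos hx0, hi]
  have hA : 0 < A ι := by linarith [one_lt_A ι]
  calc |x ^ p - mu x i ^ q| ≤ |Real.log x * p - Real.log x * (A ι * q)| := by
        rw [e1, e2]
        exact exp_lip (mul_nonpos_of_nonpos_of_nonneg hlog (by positivity))
          (mul_nonpos_of_nonpos_of_nonneg hlog (by positivity))
    _ = K * |(q : ℝ) * A ι - p| := by
        rw [← mul_sub, abs_mul, abs_sub_comm, mul_comm (A ι)]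
    _ ≤ K * (c / 2) ^ n := by gcongr
    _ < 2 ^ n * (c / 2) ^ n := by
        apply mul_lt_mul_of_pos_right _ (by positivity)
        exact hM.trans_le (pow_le_pow_right₀ (by norm_num) ((le_max_right _ _).trans hn))
    _ = c ^ n := by rw [← mul_pow]; congr 1; ring

/-- the extension of the letters to the complex plane -/
noncomputable def Fc (θ x r : ℝ) (l : L) (z : ℂ) : ℂ :=
  1 / 2 + (((E θ x l 0 0 : ℝ) : ℂ) * (2 * (r : ℂ) * (z - 1 / 2)) + ((E θ x l 0 1 : ℝ) : ℂ)) /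
    (((E θ x l 1 0 : ℝ) : ℂ) * (2 * (r : ℂ) * (z - 1 / 2)) + ((E θ x l 1 1 : ℝ) : ℂ)) / (2 * (r : ℂ))

lemma Fc_real (l : L) (t : ℝ) : Fc θ x r l (t : ℂ) = ((fT θ x r [l] t : ℝ) : ℂ) := by
  unfold Fc fT F
  simp only [List.foldr_cons, List.foldr_nil, prim, pn, pd]
  push_cast
  ring

lemma den_c (h : Ok2 θ x r) (l : L) {z : ℂ} (hz : ‖2 * (r : ℂ) * (z - 1 / 2)‖ ≤ 1 / 1000) :
    49 / 50 ≤ ‖((E θ x l 1 0 : ℝ) : ℂ) * (2 * (r : ℂ) * (z - 1 / 2)) + ((E θ x l 1 1 : ℝ) : ℂ)‖ := by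
  obtain ⟨-, -, h3, h4⟩ := entries h l
  set a : ℂ := ((E θ x l 1 0 : ℝ) : ℂ) * (2 * (r : ℂ) * (z - 1 / 2))
  have h5 : ‖a‖ ≤ 5 * (1 / 1000) := by
    rw [norm_mul, Complex.norm_real]
    exact mul_le_mul h3 hz (norm_nonneg _) (by norm_num)
  have h6 : ‖((E θ x l 1 1 : ℝ) : ℂ)‖ = E θ x l 1 1 := by
    rw [Complex.norm_real, Real.norm_of_nonneg (by linarith)]
  have h7 : ‖((E θ x l 1 1 : ℝ) : ℂ)‖ ≤ ‖a + ((E θ x l 1 1 : ℝ) : ℂ)‖ + ‖a‖ := by
    have := norm_sub_le (a + ((E θ x l 1 1 : ℝ) : ℂ)) a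
    rwa [add_sub_cancel_left] at this
  linarith

lemma det_c (l : L) : ((E θ x l 0 0 : ℝ) : ℂ) * ((E θ x l 1 1 : ℝ) : ℂ)
    - ((E θ x l 0 1 : ℝ) : ℂ) * ((E θ x l 1 0 : ℝ) : ℂ) = (((E θ x l).det : ℝ) : ℂ) := by
  rw [Matrix.det_fin_two]
  push_cast
  ring

lemma Fc_hasDerivAt (h : Ok2 θ x r) (l : L) {z : ℂ}
    (hz : ‖2 * (r : ℂ) * (z - 1 / 2)‖ ≤ 1 / 1000) :
    HasDerivAt (Fc θ x r l) ((((E θ x l).det : ℝ) : ℂ) /
      (((E θ x l 1 0 : ℝ) : ℂ) * (2 * (r : ℂ) * (z - 1 / 2)) + ((E θ x l 1 1 : ℝ) : ℂ)) ^ 2) z := by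
  have h0 : ((E θ x l 1 0 : ℝ) : ℂ) * (2 * (r : ℂ) * (z - 1 / 2)) + ((E θ x l 1 1 : ℝ) : ℂ) ≠ 0 := by
    intro h0
    have := den_c h l hz
    rw [h0, norm_zero] at this
    linarith
  have hr : (r : ℂ) ≠ 0 := by exact_mod_cast h.r0.ne'
  have hu : HasDerivAt (fun z : ℂ => 2 * (r : ℂ) * (z - 1 / 2)) (2 * (r : ℂ)) z :=
    (((hasDerivAt_id z).sub_const (1 / 2 : ℂ)).const_mul (2 * (r : ℂ))).congr_deriv (mul_one _)
  have h1 := ((((hu.const_mul ((E θ x l 0 0 : ℝ) : ℂ)).add_const ((E θ x l 0 1 : ℝ) : ℂ)).div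
    ((hu.const_mul ((E θ x l 1 0 : ℝ) : ℂ)).add_const ((E θ x l 1 1 : ℝ) : ℂ)) h0).div_const
      (2 * (r : ℂ))).const_add (1 / 2)
  refine h1.congr_deriv ?_
  rw [← det_c]
  field_simp
  ring

lemma Fc_sub (h : Ok2 θ x r) (l : L) {z z' : ℂ}
    (hz : ‖2 * (r : ℂ) * (z - 1 / 2)‖ ≤ 1 / 1000) (hz' : ‖2 * (r : ℂ) * (z' - 1 / 2)‖ ≤ 1 / 1000) :
    ‖Fc θ x r l z - Fc θ x r l z'‖ ≤ 1 / 5 * ‖z - z'‖ := by
  have d1 := den_c h l hz
  have d2 := den_c h l hz'
  have hr : (r : ℂ) ≠ 0 := by exact_mod_cast h.r0.ne'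
  set D1 := ((E θ x l 1 0 : ℝ) : ℂ) * (2 * (r : ℂ) * (z - 1 / 2)) + ((E θ x l 1 1 : ℝ) : ℂ) with hD1
  set D2 := ((E θ x l 1 0 : ℝ) : ℂ) * (2 * (r : ℂ) * (z' - 1 / 2)) + ((E θ x l 1 1 : ℝ) : ℂ) with hD2
  have e1 : D1 ≠ 0 := by
    intro h0
    rw [h0, norm_zero] at d1
    linarith
  have e2 : D2 ≠ 0 := by
    intro h0
    rw [h0, norm_zero] at d2
    linarith
  have e3 : Fc θ x r l z - Fc θ x r l z' = (((E θ x l).det : ℝ) : ℂ) * (z - z') / (D1 * D2) := by
    unfold Fc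
    rw [← hD1, ← hD2, ← det_c]
    rw [eq_div_iff (mul_ne_zero e1 e2)]
    field_simp
    rw [hD1, hD2]
    ring
  obtain ⟨h4, h5⟩ := det_mem h.toOk l
  rw [e3, norm_div, norm_mul, norm_mul, Complex.norm_real, Real.norm_of_nonneg h4.le,
    div_le_iff₀ (by positivity)]
  have h6 : 1 / 2 ≤ ‖D1‖ * ‖D2‖ := by nlinarith
  have h7 := norm_nonneg (z - z')
  nlinarith

end Pool.Agent.Q187.Sec
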